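import Pool.Agent.Helper85.KN.VStep

/-!
# Sums over boxes
-/

namespace Pool.Agent.Helper85.KN

open Finset

variable {ι : Type*} [Fintype ι] [DecidableEq ι]

/-- The functions `j` with `j i < a i` for `i ∈ s` and `j i = 0` for `i ∉ s`. -/
def box (a : ι → ℕ) (s : Finset ι) : Finset (ι → ℕ) :=
  Fintype.piFinset (fun i ↦ if i ∈ s then range (a i) else {0})

/-- `∑ j_i / a_i`. -/
noncomputable def val (a : ι → ℕ) (j : ι → ℕ) : ℝ := ∑ i, (j i : ℝ) / a i

/-- The mean of `φ (y + ∑_{i ∈ s} j_i/a_i)` over the box. -/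
noncomputable def E (a : ι → ℕ) (s : Finset ι) (φ : ℝ → ℝ) (y : ℝ) : ℝ :=
  (∏ i ∈ s, (a i : ℝ))⁻¹ * ∑ j ∈ box a s, φ (y + val a j)

theorem mem_box {a : ι → ℕ} {s : Finset ι} {j : ι → ℕ} :
    j ∈ box a s ↔ ∀ i, (i ∈ s → j i < a i) ∧ (i ∉ s → j i = 0) := by
  unfold box
  rw [Fintype.mem_piFinset]
  refine forall_congr' fun i ↦ ?_
  by_cases h : i ∈ s <;> simp [h]

omit [DecidableEq ι] in
theorem val_nonneg (a j : ι → ℕ) : 0 ≤ val a j :=
  Finset.sum_nonneg fun i _ ↦ by positivity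

theorem val_update (a : ι → ℕ) (j : ι → ℕ) (i : ι) (h : j i = 0) (k : ℕ) :
    val a (Function.update j i k) = val a j + (k : ℝ) / a i := by
  unfold val
  rw [← Finset.add_sum_erase univ _ (mem_univ i), ← Finset.add_sum_erase univ (fun l ↦ (j l : ℝ) / a l)
    (mem_univ i)]
  have : ∑ x ∈ univ.erase i, (Function.update j i k x : ℝ) / a x =
      ∑ x ∈ univ.erase i, (j x : ℝ) / a x := by
    apply Finset.sum_congr rfl
    intro l hl
    rw [Function.update_of_ne (Finset.ne_of_mem_erase hl)]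
  rw [this]
  simp [h]
  ring

theorem E_empty (a : ι → ℕ) (φ : ℝ → ℝ) (y : ℝ) : E a ∅ φ y = φ y := by
  have : box a (∅ : Finset ι) = {fun _ ↦ 0} := by
    ext j
    rw [mem_box, mem_singleton]
    constructor
    · intro h
      funext i
      exact (h i).2 (by simp)
    · rintro rfl i
      simp
  unfold E
  rw [this]
  simp [val]

theorem sum_box_insert (a : ι → ℕ) (s : Finset ι) (i : ι) (hi : i ∉ s) (f : ℝ → ℝ) :
    ∑ j ∈ box a (insert i s), f (val a j) =
      ∑ k ∈ range (a i), ∑ j ∈ box a s, f (val a j + (k : ℝ) / a i) := by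
  rw [← Finset.sum_product']
  symm
  apply Finset.sum_bij' (fun (x : ℕ × (ι → ℕ)) _ ↦ Function.update x.2 i x.1)
    (fun (j : ι → ℕ) _ ↦ (j i, Function.update j i 0))
  · rintro ⟨k, j⟩ h
    rw [mem_product, mem_range] at h
    rw [mem_box]
    obtain ⟨hk, hj⟩ := h
    rw [mem_box] at hj
    intro l
    by_cases hl : l = i
    · subst hl
      simp only [Function.update_self]
      exact ⟨fun _ ↦ hk, fun h ↦ absurd (mem_insert_self _ _) h⟩
    · simp only [Function.update_of_ne hl]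
      rw [mem_insert]
      constructor
      · rintro (h | h)
        · exact absurd h hl
        · exact (hj l).1 h
      · intro h
        exact (hj l).2 (fun h' ↦ h (Or.inr h'))
  · intro j hj
    rw [mem_box] at hj
    rw [mem_product, mem_range, mem_box]
    refine ⟨(hj i).1 (mem_insert_self _ _), ?_⟩
    intro l
    by_cases hl : l = i
    · subst hl
      simp only [Function.update_self]
      exact ⟨fun h ↦ absurd h hi, fun _ ↦ trivial⟩
    · simp only [Function.update_of_ne hl]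
      exact ⟨fun h ↦ (hj l).1 (mem_insert_of_mem h), fun h ↦ (hj l).2 (by
        rw [mem_insert]; rintro (h' | h')
        · exact hl h'
        · exact h h')⟩
  · rintro ⟨k, j⟩ h
    rw [mem_product, mem_box] at h
    have h0 : j i = 0 := (h.2 i).2 hi
    simp only [Function.update_self, Function.update_idem, Prod.mk.injEq, true_and]
    rw [← h0, Function.update_eq_self]
  · intro j _
    simp
  · rintro ⟨k, j⟩ h
    rw [mem_product, mem_box] at h
    have h0 : j i = 0 := (h.2 i).2 hi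
    rw [val_update a j i h0]

theorem E_insert (a : ι → ℕ) (s : Finset ι) (i : ι) (hi : i ∉ s) (φ : ℝ → ℝ) (y : ℝ) :
    E a (insert i s) φ y = E a s (T (a i) φ) y := by
  unfold E
  rw [sum_box_insert a s i hi (fun v ↦ φ (y + v)), Finset.prod_insert hi, mul_inv,
    Finset.sum_comm]
  unfold T
  rw [← Finset.mul_sum]
  rw [← mul_assoc, mul_comm (a i : ℝ)⁻¹]
  congr 1
  apply Finset.sum_congr rfl
  intro j _
  apply Finset.sum_congr rfl
  intro k _
  congr 1
  ring

theorem E_insert' (a : ι → ℕ) (s : Finset ι) (i : ι) (hi : i ∉ s) (φ : ℝ → ℝ) (y : ℝ) :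
    E a (insert i s) φ y = (a i : ℝ)⁻¹ * ∑ k ∈ range (a i), E a s φ (y + (k : ℝ) / a i) := by
  unfold E
  rw [sum_box_insert a s i hi (fun v ↦ φ (y + v)), Finset.prod_insert hi, mul_inv]
  rw [← Finset.mul_sum, mul_assoc]
  congr 2
  apply Finset.sum_congr rfl
  intro k _
  apply Finset.sum_congr rfl
  intro j _
  congr 1
  ring

theorem E_erase (a : ι → ℕ) (s : Finset ι) (i : ι) (hi : i ∈ s) (φ : ℝ → ℝ) (y : ℝ) :
    E a s φ y = E a (s.erase i) (T (a i) φ) y := by
  conv_lhs => rw [← Finset.insert_erase hi]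
  exact E_insert a _ i (Finset.notMem_erase i s) φ y

theorem E_erase' (a : ι → ℕ) (s : Finset ι) (i : ι) (hi : i ∈ s) (φ : ℝ → ℝ) (y : ℝ) :
    E a s φ y = (a i : ℝ)⁻¹ * ∑ k ∈ range (a i), E a (s.erase i) φ (y + (k : ℝ) / a i) := by
  conv_lhs => rw [← Finset.insert_erase hi]
  exact E_insert' a _ i (Finset.notMem_erase i s) φ y

theorem E_le (a : ι → ℕ) (s : Finset ι) (φ ψ : ℝ → ℝ) (y : ℝ) (hy : 0 ≤ y)
    (h : ∀ x, 0 ≤ x → φ x ≤ ψ x) : E a s φ y ≤ E a s ψ y := by
  unfold E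
  apply mul_le_mul_of_nonneg_left _ (by positivity)
  apply Finset.sum_le_sum
  intro j _
  exact h _ (add_nonneg hy (val_nonneg a j))

theorem E_lin (a : ι → ℕ) (s : Finset ι) (φ ψ : ℝ → ℝ) (α β y : ℝ) :
    E a s (fun x ↦ α * φ x + β * ψ x) y = α * E a s φ y + β * E a s ψ y := by
  unfold E
  rw [Finset.sum_add_distrib, ← Finset.mul_sum, ← Finset.mul_sum]
  ring

/-- The Poisson-binomial weights. -/
noncomputable def wt (p : ι → ℝ) (s K : Finset ι) : ℝ := (∏ i ∈ K, p i) * ∏ i ∈ s \ K, (1 - p i)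

/-- The mean of `f` of the Poisson-binomial variable. -/
noncomputable def PB (p : ι → ℝ) (s : Finset ι) (f : ℕ → ℝ) : ℝ :=
  ∑ K ∈ s.powerset, wt p s K * f K.card

omit [Fintype ι] in
theorem PB_empty (p : ι → ℝ) (f : ℕ → ℝ) : PB p (∅ : Finset ι) f = f 0 := by
  simp [PB, wt]

omit [Fintype ι] in
theorem PB_insert (p : ι → ℝ) (s : Finset ι) (i : ι) (hi : i ∉ s) (f : ℕ → ℝ) :
    PB p (insert i s) f = (1 - p i) * PB p s f + p i * PB p s (fun k ↦ f (k + 1)) := by
  unfold PB
  rw [Finset.sum_powerset_insert hi, Finset.mul_sum, Finset.mul_sum]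
  congr 1
  · apply Finset.sum_congr rfl
    intro K hK
    rw [mem_powerset] at hK
    have hiK : i ∉ K := fun h ↦ hi (hK h)
    unfold wt
    rw [Finset.insert_sdiff_of_notMem _ hiK, Finset.prod_insert (by simp [hi])]
    ring
  · apply Finset.sum_congr rfl
    intro K hK
    rw [mem_powerset] at hK
    have hiK : i ∉ K := fun h ↦ hi (hK h)
    unfold wt
    rw [Finset.prod_insert hiK, Finset.card_insert_of_notMem hiK,
      Finset.insert_sdiff_insert, Finset.sdiff_insert_of_notMem hi]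
    ring

/-- Repeated replacement. -/
theorem E_le_PB (a : ι → ℕ) (ha : ∀ i, 1 ≤ a i) (n : ℕ) (s : Finset ι) :
    ∀ (j : ℕ) (y : ℝ), 0 ≤ y →
    E a s (G (n + 2) (j + 1)) y ≤
      PB (fun i ↦ 1 - (a i : ℝ)⁻¹) s (fun k ↦ G (n + 2) (j + 1 + k) y) := by
  induction s using Finset.induction_on with
  | empty =>
    intro j y hy
    rw [E_empty, PB_empty]
  | insert i s hi ih =>
    intro j y hy
    rw [E_insert a s i hi, PB_insert _ s i hi]
    have h1 : E a s (T (a i) (G (n + 2) (j + 1))) y ≤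
        E a s (fun x ↦ (a i : ℝ)⁻¹ * G (n + 2) (j + 1) x +
          (1 - (a i : ℝ)⁻¹) * G (n + 2) (j + 2) x) y :=
      E_le a s _ _ y hy (fun x hx ↦ vstep n (a i) (ha i) j x hx)
    rw [E_lin] at h1
    have h2 : 0 ≤ (a i : ℝ)⁻¹ := by positivity
    have h3 : 0 ≤ 1 - (a i : ℝ)⁻¹ := by
      rw [sub_nonneg]
      exact inv_le_one_of_one_le₀ (by exact_mod_cast ha i)
    have h4 := mul_le_mul_of_nonneg_left (ih j y hy) h2
    have h5 := mul_le_mul_of_nonneg_left (ih (j + 1) y hy) h3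
    have e : (fun k ↦ G (n + 2) (j + 1 + 1 + k) y) = fun k ↦ G (n + 2) (j + 1 + (k + 1)) y := by
      funext k
      rw [show j + 1 + 1 + k = j + 1 + (k + 1) by ring]
    rw [e] at h5
    simp only [sub_sub_cancel]
    linarith

end Pool.Agent.Helper85.KN
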