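import Mathlib

/-!
# The functions `G n j x = E binom(⌊x + U_1 + ... + U_j⌋, n)`
-/

namespace Pool.Agent.Helper85.KN

open Finset MeasureTheory intervalIntegral

/-- `G n j x` is the mean of `binom(⌊x + U_1 + ... + U_j⌋, n)` for independent uniform `U_i`. -/
noncomputable def G (n : ℕ) : ℕ → ℝ → ℝ
  | 0 => fun y => (Nat.choose ⌊y⌋₊ n : ℝ)
  | j + 1 => fun y => ∫ u in (0 : ℝ)..1, G n j (y + u)

theorem G_zero (n : ℕ) (y : ℝ) : G n 0 y = (Nat.choose ⌊y⌋₊ n : ℝ) := rfl

theorem G_succ (n j : ℕ) (y : ℝ) : G n (j + 1) y = ∫ u in (0 : ℝ)..1, G n j (y + u) := rfl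

theorem G_mono (n j : ℕ) : Monotone (G n j) := by
  induction j with
  | zero =>
    intro x y hxy
    simp only [G_zero]
    exact_mod_cast Nat.choose_le_choose n (Nat.floor_mono hxy)
  | succ j ih =>
    intro x y hxy
    simp only [G_succ]
    have h1 : Monotone fun u : ℝ ↦ G n j (x + u) := fun u v huv ↦ ih (by linarith)
    have h2 : Monotone fun u : ℝ ↦ G n j (y + u) := fun u v huv ↦ ih (by linarith)
    exact intervalIntegral.integral_mono_on (by norm_num) h1.intervalIntegrable
      h2.intervalIntegrable (fun u _ ↦ ih (by linarith))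

theorem G_shift_mono (n j : ℕ) (x : ℝ) : Monotone fun u : ℝ ↦ G n j (x + u) :=
  fun u v huv ↦ G_mono n j (by linarith)

theorem G_int (n j : ℕ) (x a b : ℝ) :
    IntervalIntegrable (fun u : ℝ ↦ G n j (x + u)) volume a b :=
  (G_shift_mono n j x).intervalIntegrable

theorem G_int' (n j : ℕ) (a b : ℝ) : IntervalIntegrable (G n j) volume a b :=
  (G_mono n j).intervalIntegrable

/-- The averaging operator over `{0, 1/a, ..., (a-1)/a}`. -/
noncomputable def T (a : ℕ) (φ : ℝ → ℝ) (y : ℝ) : ℝ := (a : ℝ)⁻¹ * ∑ k ∈ range a, φ (y + k / a)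

/-- **V3.** -/
theorem T_le_integral (a : ℕ) (ha : 1 ≤ a) (φ : ℝ → ℝ) (hφ : Monotone φ) (y : ℝ) :
    T a φ y ≤ ∫ u in (0 : ℝ)..1, φ (y + u) := by
  have ha0 : (a : ℝ) ≠ 0 := by positivity
  have h1 : Monotone fun x : ℝ ↦ φ (y + x / a) := by
    intro u v huv
    apply hφ
    have : u / a ≤ v / a := by gcongr
    linarith
  have h2 := MonotoneOn.sum_le_integral (x₀ := 0) (a := a) (f := fun x : ℝ ↦ φ (y + x / a))
    (h1.monotoneOn _)
  simp only [zero_add] at h2
  have h3 : ∫ x in (0 : ℝ)..a, φ (y + x / a) = a * ∫ u in (0 : ℝ)..1, φ (y + u) := by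
    have := intervalIntegral.integral_comp_div (a := (0 : ℝ)) (b := a) (fun u ↦ φ (y + u)) ha0
    rw [this, zero_div, div_self ha0, smul_eq_mul]
  rw [h3] at h2
  unfold T
  rw [inv_mul_le_iff₀ (by positivity)]
  exact h2

theorem G_pascal (n j : ℕ) : ∀ y : ℝ, 0 ≤ y →
    G (n + 1) j (y + 1) = G (n + 1) j y + G n j y := by
  induction j with
  | zero =>
    intro y hy
    simp only [G_zero]
    rw [Nat.floor_add_one hy, Nat.choose_succ_succ']
    push_cast
    ring
  | succ j ih =>
    intro y hy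
    simp only [G_succ]
    rw [← intervalIntegral.integral_add (G_int _ _ _ _ _) (G_int _ _ _ _ _)]
    apply intervalIntegral.integral_congr
    intro u hu
    rw [Set.uIcc_of_le (by norm_num)] at hu
    have := ih (y + u) (by linarith [hu.1])
    simp only
    rw [← this]
    congr 1
    ring

/-- Values at `y + 1` for `n = 0`. -/
theorem G_zero_left (j : ℕ) : ∀ y : ℝ, G 0 j y = 1 := by
  induction j with
  | zero => intro y; simp [G_zero]
  | succ j ih => intro y; simp [G_succ, ih]

/-- `G (n+1) (j+1) x = G (n+1) (j+1) y + ∫_y^x G n j` for `0 ≤ y ≤ x`. -/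
theorem G_deriv (n j : ℕ) (y x : ℝ) (hy : 0 ≤ y) (hx : y ≤ x) :
    G (n + 1) (j + 1) x = G (n + 1) (j + 1) y + ∫ v in y..x, G n j v := by
  have e : ∀ z : ℝ, G (n + 1) (j + 1) z = ∫ v in z..(z + 1), G (n + 1) j v := by
    intro z
    rw [G_succ]
    have := intervalIntegral.integral_comp_add_left (a := (0 : ℝ)) (b := 1)
      (fun v ↦ G (n + 1) j v) z
    rw [this, add_zero]
  rw [e x, e y]
  have h1 : ∫ v in y..(y + 1), G (n + 1) j v =
      (∫ v in y..x, G (n + 1) j v) + ∫ v in x..(y + 1), G (n + 1) j v :=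
    (intervalIntegral.integral_add_adjacent_intervals (G_int' _ _ _ _) (G_int' _ _ _ _)).symm
  have h2 : ∫ v in x..(x + 1), G (n + 1) j v =
      (∫ v in x..(y + 1), G (n + 1) j v) + ∫ v in (y + 1)..(x + 1), G (n + 1) j v :=
    (intervalIntegral.integral_add_adjacent_intervals (G_int' _ _ _ _) (G_int' _ _ _ _)).symm
  have h3 : ∫ v in (y + 1)..(x + 1), G (n + 1) j v = ∫ v in y..x, G (n + 1) j (v + 1) :=
    (intervalIntegral.integral_comp_add_right (fun v ↦ G (n + 1) j v) 1).symm
  have h4 : ∫ v in y..x, G (n + 1) j (v + 1) =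
      (∫ v in y..x, G (n + 1) j v) + ∫ v in y..x, G n j v := by
    rw [← intervalIntegral.integral_add (G_int' _ _ _ _) (G_int' _ _ _ _)]
    apply intervalIntegral.integral_congr
    intro u hu
    rw [Set.uIcc_of_le hx] at hu
    exact G_pascal n j u (by linarith [hu.1])
  rw [h2, h3, h4, h1]
  ring

/-- `G` at a natural number plus something below one. -/
theorem floor_nat_add (m : ℕ) (x : ℝ) (h0 : 0 ≤ x) (h1 : x < 1) : ⌊(m : ℝ) + x⌋₊ = m := by
  rw [Nat.floor_eq_iff (by positivity)]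
  constructor
  · linarith
  · linarith

theorem G_one (n m : ℕ) (x : ℝ) (h0 : 0 ≤ x) (h1 : x ≤ 1) :
    G (n + 1) 1 (m + x) = Nat.choose m (n + 1) + x * Nat.choose m n := by
  have hm : (0 : ℝ) ≤ m := by positivity
  rw [G_deriv n 0 m (m + x) hm (by linarith)]
  congr 1
  · rw [G_succ]
    have : ∫ u in (0 : ℝ)..1, G (n + 1) 0 (m + u) = ∫ u in (0 : ℝ)..1, (Nat.choose m (n + 1) : ℝ) := by
      apply intervalIntegral.integral_congr_Ioo_of_le (by norm_num)
      intro u hu
      simp only [G_zero]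
      rw [floor_nat_add m u hu.1.le hu.2]
    rw [this]
    simp
  · have : ∫ v in (m : ℝ)..(m + x), G n 0 v = ∫ v in (m : ℝ)..(m + x), (Nat.choose m n : ℝ) := by
      apply intervalIntegral.integral_congr_Ioo_of_le (by linarith)
      intro u hu
      simp only [G_zero]
      have : u = m + (u - m) := by ring
      rw [this, floor_nat_add m (u - m) (by linarith [hu.1]) (by linarith [hu.2])]
    rw [this]
    simp

end Pool.Agent.Helper85.KN
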