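import Pool.Agent.Helper85.KN.GFun

/-!
# `G n j` on `[0, 1]` is a polynomial
-/

namespace Pool.Agent.Helper85.KN

open Finset MeasureTheory intervalIntegral

theorem G_poly (c : ℕ → ℕ → ℝ) (hc0 : ∀ n, c 0 n = if n = 0 then 1 else 0)
    (hconv : ∀ k n, c (k + 1) n = ∑ q ∈ range (n + 1),
      if q ≤ k then c (k - q) (n - q) / ((q + 1).factorial : ℝ) else 0) (j : ℕ) :
    ∀ (n : ℕ) (x : ℝ), 0 ≤ x → (x < 1 ∨ (x ≤ 1 ∧ 1 ≤ j)) →
    G n j x = ∑ q ∈ range (n + 1), (if q ≤ j then c (j - q) (n - q) else 0) *
      (x ^ q / (q.factorial : ℝ)) := by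
  induction j with
  | zero =>
    intro n x h0 h1
    have h1' : x < 1 := by
      rcases h1 with h | h
      · exact h
      · omega
    rw [G_zero, Nat.floor_eq_zero.2 h1', Finset.sum_range_succ']
    rw [Finset.sum_eq_zero]
    · rcases n with _ | n
      · simp [hc0]
      · simp [hc0]
    · intro q _
      simp
  | succ j ih =>
    intro n x h0 h1
    have h1' : x ≤ 1 := by
      rcases h1 with h | h
      · exact h.le
      · exact h.1
    have hint : ∀ (n : ℕ) (y : ℝ), 0 ≤ y → y ≤ 1 → ∫ u in (0 : ℝ)..y, G n j u =
        ∑ q ∈ range (n + 1), (if q ≤ j then c (j - q) (n - q) else 0) *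
          (y ^ (q + 1) / ((q + 1).factorial : ℝ)) := by
      intro n y hy0 hy1
      have e : ∫ u in (0 : ℝ)..y, G n j u = ∫ u in (0 : ℝ)..y,
          ∑ q ∈ range (n + 1), (if q ≤ j then c (j - q) (n - q) else 0) *
            (u ^ q / (q.factorial : ℝ)) := by
        apply intervalIntegral.integral_congr_Ioo_of_le hy0
        intro u hu
        exact ih n u hu.1.le (Or.inl (lt_of_lt_of_le hu.2 hy1))
      rw [e, intervalIntegral.integral_finsetSum]
      · apply Finset.sum_congr rfl
        intro q _
        rw [intervalIntegral.integral_const_mul, intervalIntegral.integral_div, integral_pow]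
        congr 1
        rw [Nat.factorial_succ]
        push_cast
        field_simp
        ring
      · intro q _
        apply Continuous.intervalIntegrable
        fun_prop
    rcases n with _ | n
    · have hone : ∀ k, c k 0 = 1 := by
        intro k
        induction k with
        | zero => simp [hc0]
        | succ k ihk => rw [hconv]; simp [ihk]
      simp [G_zero_left, hone]
    · rw [G_deriv n j 0 x le_rfl h0, hint n x h0 h1', G_succ]
      have e1 : ∫ u in (0 : ℝ)..1, G (n + 1) j (0 + u) = c (j + 1) (n + 1) := by
        simp only [zero_add]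
        rw [hint (n + 1) 1 zero_le_one le_rfl, hconv]
        apply Finset.sum_congr rfl
        intro q _
        split_ifs
        · rw [one_pow]; ring
        · simp
      rw [e1, Finset.sum_range_succ' _ (n + 1)]
      simp only [Nat.add_le_add_iff_right, Nat.reduceSubDiff, zero_le, if_true, Nat.sub_zero,
        pow_zero, Nat.factorial_zero, Nat.cast_one, div_one, mul_one]
      rw [add_comm]

end Pool.Agent.Helper85.KN
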