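import Pool.Agent.Helper85.KN.N3c
import Pool.Agent.Helper87.KN.Cert

/-!
# The Kerner-Némethi inequality for Brieskorn-Hamm complete intersections
-/

namespace Pool.Agent.Helper85.KN

open Finset

variable {ι : Type*} [Fintype ι] [DecidableEq ι]

theorem final4 (n : ℕ) (hn : 4 ≤ n) (a : ι → ℕ) (ha : ∀ i, 2 ≤ a i) (s : Finset ι)
    (hs : n ≤ s.card) (z : ℝ) (hz : 0 ≤ z) (hza : ∀ i ∈ s, z ≤ (a i : ℝ)⁻¹) :
    E a s (G n 1) 0 ≤ (Pool.Agent.Helper87.KN.rho n s.card : ℝ) *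
      (PB (pp a) s (fun k ↦ (Nat.choose k n : ℝ)) -
        z * PB (pp a) s (fun k ↦ (Nat.choose (k - 1) (n - 1) : ℝ))) := by
  have hM0 : (0 : ℝ) < s.card := by
    have : 0 < s.card := by omega
    exact_mod_cast this
  have hM1 : (s.card : ℚ) ≠ 0 := by
    have : s.card ≠ 0 := by omega
    exact_mod_cast this
  have hp : ∀ i ∈ s, 1 / 2 ≤ pp a i ∧ pp a i ≤ 1 ∧ z ≤ 1 - pp a i := by
    intro i hi
    have h1 : (a i : ℝ)⁻¹ ≤ 2⁻¹ := inv_anti₀ (by norm_num) (by exact_mod_cast ha i)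
    have h2 : 0 ≤ (a i : ℝ)⁻¹ := by positivity
    have h3 := hza i hi
    rw [← one_div (2 : ℝ)] at h1
    unfold pp
    exact ⟨by linarith, by linarith, by linarith⟩
  obtain ⟨u, hu0, hu⟩ := Pool.Agent.Helper87.KN.cert n s.card hn hs
  have key := final_of_cert n (pp a) s z (Pool.Agent.Helper87.KN.rho n s.card : ℝ)
    (fun k ↦ if k ≤ s.card then (Pool.Agent.Helper87.KN.F n s.card k : ℝ) else 0)
    (fun k ↦ (s.card : ℝ) * (u k : ℝ)) (hr n) hz hp ?_ ?_ ?_ ?_ ?_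
  · have h1 := (sum_step n (by omega) a (fun i ↦ by have := ha i; omega) s).trans key
    rw [mul_assoc] at h1
    exact le_of_mul_le_mul_left h1 hM0
  · intro k hk
    simp only [hk, if_true]
    unfold cr
    exact_mod_cast Pool.Agent.Helper87.KN.mul_F hk hs
  · intro k
    split_ifs with h
    · exact_mod_cast Pool.Agent.Helper87.KN.F_nonneg h
    · exact le_rfl
  · intro k
    unfold hr
    exact_mod_cast Pool.Agent.Helper87.KN.h_nonneg n k (by omega)
  · intro k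
    have : (0 : ℝ) ≤ (u k : ℝ) := by exact_mod_cast hu0 k
    positivity
  · intro k hk
    have hk1 : k - 1 ≤ s.card := by omega
    simp only [hk, hk1, if_true]
    have h := hu k hk
    unfold Pool.Agent.Helper87.KN.B at h
    have h2 : (s.card : ℚ) * ((k : ℚ) * u (k - 1) - ((s.card : ℚ) - k) * u k) ≤
        (s.card : ℚ) * ((k : ℚ) * Pool.Agent.Helper87.KN.F n s.card (k - 1) +
          ((s.card : ℚ) - k) * Pool.Agent.Helper87.KN.F n s.card k) +
          (k : ℚ) * Pool.Agent.Helper87.KN.h n (k - 1) -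
          (s.card : ℚ) * Pool.Agent.Helper87.KN.rho n s.card * ((k - 1).choose (n - 1) : ℚ) := by
      have h3 := mul_le_mul_of_nonneg_left h (by positivity : (0 : ℚ) ≤ s.card)
      refine h3.trans (le_of_eq ?_)
      field_simp
    have h4 : (s.card : ℝ) * ((k : ℝ) * (u (k - 1) : ℝ) - ((s.card : ℝ) - k) * (u k : ℝ)) ≤
        (s.card : ℝ) * ((k : ℝ) * (Pool.Agent.Helper87.KN.F n s.card (k - 1) : ℝ) +
          ((s.card : ℝ) - k) * (Pool.Agent.Helper87.KN.F n s.card k : ℝ)) +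
          (k : ℝ) * (Pool.Agent.Helper87.KN.h n (k - 1) : ℝ) -
          (s.card : ℝ) * (Pool.Agent.Helper87.KN.rho n s.card : ℝ) *
            ((k - 1).choose (n - 1) : ℝ) := by
      exact_mod_cast h2
    unfold hr
    linarith

theorem rho_three (M : ℕ) (hM : 3 ≤ M) :
    (Pool.Agent.Helper87.KN.rho 3 M : ℝ) = ((M : ℝ) - 2) / (8 * M) := by
  obtain ⟨m, rfl⟩ : ∃ m, M = m + 3 := ⟨M - 3, by omega⟩
  unfold Pool.Agent.Helper87.KN.rho
  have h1 := cr_three (m + 2)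
  have h2 := choose_three_real (m + 3)
  unfold cr at h1
  push_cast
  rw [show m + 3 + 1 = m + 2 + 2 by ring, h1, h2]
  push_cast
  have : (m : ℝ) + 3 ≠ 0 := by positivity
  have : (m : ℝ) + 2 ≠ 0 := by positivity
  have : (m : ℝ) + 1 ≠ 0 := by positivity
  have e1 : (m : ℝ) + 3 - 1 = m + 2 := by ring
  have e2 : (m : ℝ) + 3 - 2 = m + 1 := by ring
  have e3 : (m : ℝ) + 2 - 1 = m + 1 := by ring
  rw [e1, e2, e3]
  field_simp
  ring

theorem final_all (n : ℕ) (hn : 3 ≤ n) (a : ι → ℕ) (ha : ∀ i, 2 ≤ a i) (s : Finset ι)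
    (hs : n ≤ s.card) (z : ℝ) (hz : 0 ≤ z) (hza : ∀ i ∈ s, z ≤ (a i : ℝ)⁻¹) :
    E a s (G n 1) 0 ≤ (Pool.Agent.Helper87.KN.rho n s.card : ℝ) *
      (PB (pp a) s (fun k ↦ (Nat.choose k n : ℝ)) -
        z * PB (pp a) s (fun k ↦ (Nat.choose (k - 1) (n - 1) : ℝ))) := by
  rcases Nat.lt_or_ge 3 n with h | h
  · exact final4 n h a ha s hs z hz hza
  · obtain rfl : n = 3 := by omega
    rw [rho_three s.card hs]
    exact final3 a ha s hs z hz hza

theorem main (n r : ℕ) (hn : 3 ≤ n) (hr : 1 ≤ r) (a : Fin (n + r) → ℕ) (ha : ∀ i, 2 ≤ a i) :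
    (n + r - 1).choose n * (n + r).factorial *
      (∑ j ∈ Fintype.piFinset (fun i ↦ range (a i)), Nat.choose ⌊∑ i, (j i : ℚ) / a i⌋₊ n) ≤
    r.factorial * Nat.stirlingSecond (n + r) r *
      ∑ K : Finset (Fin (n + r)), Nat.choose (K.card - 1) n * ∏ i ∈ K, (a i - 1) := by
  have ha1 : ∀ i, 1 ≤ a i := fun i ↦ by have := ha i; omega
  have : Nonempty (Fin (n + r)) := ⟨⟨0, by omega⟩⟩
  obtain ⟨i₀, hi₀⟩ := Finite.exists_max a
  have hcard : (univ.erase i₀ : Finset (Fin (n + r))).card = n + r - 1 := by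
    rw [card_erase_of_mem (mem_univ _), card_univ, Fintype.card_fin]
  have hpos : (0 : ℝ) < ∏ i, (a i : ℝ) := by
    apply Finset.prod_pos
    intro i _
    have := ha1 i
    positivity
  have h1 := pg_le n a ha1 i₀
  have h2 := final_all n hn a ha (univ.erase i₀) (by rw [hcard]; omega) (a i₀ : ℝ)⁻¹
    (by positivity) (fun i _ ↦ inv_anti₀ (by have := ha1 i; positivity) (by exact_mod_cast hi₀ i))
  have h3 := mu_eq n (by omega) a ha1 i₀
  rw [hcard] at h2
  have h4 := h1.trans (mul_le_mul_of_nonneg_left h2 hpos.le)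
  have h5 : (∏ i, (a i : ℝ)) * ((Pool.Agent.Helper87.KN.rho n (n + r - 1) : ℝ) *
      (PB (pp a) (univ.erase i₀) (fun k ↦ (Nat.choose k n : ℝ)) -
        (a i₀ : ℝ)⁻¹ * PB (pp a) (univ.erase i₀) (fun k ↦ (Nat.choose (k - 1) (n - 1) : ℝ)))) =
      (Pool.Agent.Helper87.KN.rho n (n + r - 1) : ℝ) *
        ((∑ K : Finset (Fin (n + r)), Nat.choose (K.card - 1) n * ∏ i ∈ K, (a i - 1) : ℕ) : ℝ) := by
    rw [h3]
    ring
  rw [h5] at h4
  have hc : (0 : ℝ) < ((n + r - 1).choose n : ℝ) := by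
    have := Nat.choose_pos (show n ≤ n + r - 1 by omega)
    exact_mod_cast this
  have hf : (0 : ℝ) < ((n + r).factorial : ℝ) := by
    exact_mod_cast Nat.factorial_pos _
  have hρ : (Pool.Agent.Helper87.KN.rho n (n + r - 1) : ℝ) * ((n + r - 1).choose n *
      (n + r).factorial) = r.factorial * Nat.stirlingSecond (n + r) r := by
    unfold Pool.Agent.Helper87.KN.rho
    rw [show n + r - 1 + 1 = n + r by omega, Pool.Agent.Helper87.KN.c_stirling]
    push_cast
    field_simp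
  have h6 := mul_le_mul_of_nonneg_right h4 (mul_pos hc hf).le
  have h7 : (((n + r - 1).choose n * (n + r).factorial *
      (∑ j ∈ Fintype.piFinset (fun i ↦ range (a i)), Nat.choose ⌊∑ i, (j i : ℚ) / a i⌋₊ n) : ℕ) : ℝ) ≤
      ((r.factorial * Nat.stirlingSecond (n + r) r *
        ∑ K : Finset (Fin (n + r)), Nat.choose (K.card - 1) n * ∏ i ∈ K, (a i - 1) : ℕ) : ℝ) := by
    rw [Nat.cast_mul, Nat.cast_mul, Nat.cast_mul (r.factorial * _), Nat.cast_mul r.factorial,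
      ← hρ]
    linarith
  exact_mod_cast h7

end Pool.Agent.Helper85.KN
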