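import Pool.Agent.Helper85.KN.Red

/-!
# The geometric genus and the Milnor number
-/

namespace Pool.Agent.Helper85.KN

open Finset

variable {ι : Type*} [Fintype ι] [DecidableEq ι]

theorem pg_eq (n : ℕ) (a : ι → ℕ) (ha : ∀ i, 1 ≤ a i) :
    ((∑ j ∈ Fintype.piFinset (fun i ↦ range (a i)),
      Nat.choose ⌊∑ i, (j i : ℚ) / a i⌋₊ n : ℕ) : ℝ) =
      (∏ i, (a i : ℝ)) * E a univ (G n 0) 0 := by
  have h0 : (∏ i, (a i : ℝ)) ≠ 0 := by
    apply Finset.prod_ne_zero_iff.2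
    intro i _
    have := ha i
    positivity
  unfold E
  rw [← mul_assoc, mul_inv_cancel₀ h0, one_mul]
  push_cast
  have hb : box a (univ : Finset ι) = Fintype.piFinset (fun i ↦ range (a i)) := by
    unfold box
    simp
  rw [hb]
  apply Finset.sum_congr rfl
  intro j _
  rw [G_zero, zero_add]
  congr 2
  have : val a j = ((∑ i, (j i : ℚ) / a i : ℚ) : ℝ) := by
    unfold val
    push_cast
    rfl
  have hf : ∀ q : ℚ, ⌊(q : ℝ)⌋₊ = ⌊q⌋₊ := by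
    intro q
    rw [← Int.floor_toNat, ← Int.floor_toNat, Rat.floor_cast]
  rw [this, hf]

theorem pg_le (n : ℕ) (a : ι → ℕ) (ha : ∀ i, 1 ≤ a i) (i₀ : ι) :
    ((∑ j ∈ Fintype.piFinset (fun i ↦ range (a i)),
      Nat.choose ⌊∑ i, (j i : ℚ) / a i⌋₊ n : ℕ) : ℝ) ≤
      (∏ i, (a i : ℝ)) * E a (univ.erase i₀) (G n 1) 0 := by
  rw [pg_eq n a ha, E_erase a univ i₀ (mem_univ _)]
  apply mul_le_mul_of_nonneg_left _ (by positivity)
  apply E_le a _ _ _ 0 le_rfl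
  intro x _
  rw [G_succ]
  exact T_le_integral (a i₀) (ha i₀) _ (G_mono n 0) x

theorem mu_eq0 (a : ι → ℕ) (ha : ∀ i, 1 ≤ a i) (f : ℕ → ℝ) :
    ∑ K : Finset ι, f K.card * ∏ i ∈ K, ((a i : ℝ) - 1) =
      (∏ i, (a i : ℝ)) * PB (pp a) univ f := by
  unfold PB
  rw [Finset.powerset_univ, Finset.mul_sum]
  apply Finset.sum_congr rfl
  intro K _
  unfold wt pp
  have h1 : ∏ i, (a i : ℝ) = (∏ i ∈ K, (a i : ℝ)) * ∏ i ∈ univ \ K, (a i : ℝ) := by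
    rw [mul_comm, Finset.prod_sdiff (subset_univ K)]
  have h2 : ∏ i ∈ K, ((a i : ℝ) - 1) = (∏ i ∈ K, (a i : ℝ)) * ∏ i ∈ K, (1 - (a i : ℝ)⁻¹) := by
    rw [← Finset.prod_mul_distrib]
    apply Finset.prod_congr rfl
    intro i _
    have : (a i : ℝ) ≠ 0 := by have := ha i; positivity
    field_simp
  have h3 : (∏ i ∈ univ \ K, (a i : ℝ)) * ∏ i ∈ univ \ K, (1 - (1 - (a i : ℝ)⁻¹)) = 1 := by
    rw [← Finset.prod_mul_distrib]
    apply Finset.prod_eq_one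
    intro i _
    have : (a i : ℝ) ≠ 0 := by have := ha i; positivity
    field_simp
    ring
  rw [h1, h2]
  linear_combination (-(f K.card * (∏ i ∈ K, (a i : ℝ)) * ∏ i ∈ K, (1 - (a i : ℝ)⁻¹))) * h3

theorem mu_eq (n : ℕ) (hn : 2 ≤ n) (a : ι → ℕ) (ha : ∀ i, 1 ≤ a i) (i₀ : ι) :
    ((∑ K : Finset ι, Nat.choose (K.card - 1) n * ∏ i ∈ K, (a i - 1) : ℕ) : ℝ) =
      (∏ i, (a i : ℝ)) * (PB (pp a) (univ.erase i₀) (fun k ↦ (Nat.choose k n : ℝ)) -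
        (a i₀ : ℝ)⁻¹ * PB (pp a) (univ.erase i₀) (fun k ↦ (Nat.choose (k - 1) (n - 1) : ℝ))) := by
  have e : ((∑ K : Finset ι, Nat.choose (K.card - 1) n * ∏ i ∈ K, (a i - 1) : ℕ) : ℝ) =
      ∑ K : Finset ι, (fun k : ℕ ↦ (Nat.choose (k - 1) n : ℝ)) K.card *
        ∏ i ∈ K, ((a i : ℝ) - 1) := by
    push_cast
    apply Finset.sum_congr rfl
    intro K _
    congr 1
    apply Finset.prod_congr rfl
    intro i _
    rw [Nat.cast_sub (ha i)]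
    simp
  rw [e, mu_eq0 a ha (fun k : ℕ ↦ (Nat.choose (k - 1) n : ℝ)), PB_erase (pp a) univ i₀ (mem_univ _)]
  congr 1
  have h1 : PB (pp a) (univ.erase i₀) (fun k ↦ (Nat.choose (k + 1 - 1) n : ℝ)) =
      PB (pp a) (univ.erase i₀) (fun k ↦ (Nat.choose k n : ℝ)) := by
    apply PB_congr
    intro k _
    rw [Nat.add_sub_cancel]
  have h2 : PB (pp a) (univ.erase i₀) (fun k ↦ (Nat.choose (k - 1) n : ℝ)) =
      PB (pp a) (univ.erase i₀) (fun k ↦ (Nat.choose k n : ℝ)) -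
        PB (pp a) (univ.erase i₀) (fun k ↦ (Nat.choose (k - 1) (n - 1) : ℝ)) := by
    rw [← PB_sub]
    apply PB_congr
    intro k _
    obtain ⟨m, rfl⟩ : ∃ m, n = m + 2 := ⟨n - 2, by omega⟩
    rcases k with _ | k
    · simp
    · rw [Nat.add_sub_cancel, Nat.choose_succ_succ' k (m + 1)]
      push_cast
      ring
  rw [h1, h2]
  unfold pp
  ring

end Pool.Agent.Helper85.KN
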