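import Pool.Agent.Helper85.KN.MuPg
import Pool.Agent.Helper87.KN.Q

/-!
# Dimension three
-/

namespace Pool.Agent.Helper85.KN

open Finset

variable {ι : Type*} [Fintype ι] [DecidableEq ι]

/-- The cubic Bernoulli polynomial in the form `(x - 1/2)^3 - (x - 1/2)/4`. -/
noncomputable def b3 (x : ℝ) : ℝ := (x - 1 / 2) ^ 3 - (x - 1 / 2) / 4

theorem choose_three_real (m : ℕ) :
    (Nat.choose m 3 : ℝ) = (m : ℝ) * (m - 1) * (m - 2) / 6 := by
  rw [Nat.cast_choose_eq_descPochhammer_div]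
  simp [descPochhammer_succ_right, Nat.factorial]

theorem G_three_two (y : ℝ) (hy : 0 ≤ y) : G 3 2 y = (b3 y - b3 (Int.fract y)) / 6 := by
  obtain ⟨m, x, h0, h1, rfl⟩ : ∃ (m : ℕ) (x : ℝ), 0 ≤ x ∧ x < 1 ∧ y = m + x :=
    ⟨⌊y⌋₊, y - ⌊y⌋₊, by linarith [Nat.floor_le hy], by linarith [Nat.lt_floor_add_one y], by ring⟩
  have hf : Int.fract ((m : ℝ) + x) = x := by
    rw [Int.fract_natCast_add]
    exact Int.fract_eq_self.2 ⟨h0, h1⟩
  rw [hf, G_two 1 m x h0 h1.le]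
  have c2 : (Nat.choose m 2 : ℝ) = (m : ℝ) * (m - 1) / 2 := Nat.cast_choose_two ℝ m
  have c1 : (Nat.choose m 1 : ℝ) = m := by simp
  rw [show 1 + 2 = 3 by norm_num, show 1 + 1 = 2 by norm_num, choose_three_real, c2, c1]
  unfold b3
  ring

theorem sum_pow1 (b : ℕ) : ∑ k ∈ range (b + 1), (k : ℝ) = (b : ℝ) * (b + 1) / 2 := by
  induction b with
  | zero => simp
  | succ b ih => rw [Finset.sum_range_succ, ih]; push_cast; ring

theorem sum_pow2 (b : ℕ) :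
    ∑ k ∈ range (b + 1), (k : ℝ) ^ 2 = (b : ℝ) * (b + 1) * (2 * b + 1) / 6 := by
  induction b with
  | zero => simp
  | succ b ih => rw [Finset.sum_range_succ, ih]; push_cast; ring

theorem sum_pow3 (b : ℕ) :
    ∑ k ∈ range (b + 1), (k : ℝ) ^ 3 = ((b : ℝ) * (b + 1) / 2) ^ 2 := by
  induction b with
  | zero => simp
  | succ b ih => rw [Finset.sum_range_succ, ih]; push_cast; ring

theorem avg_cubic (A : ℕ) (hA : 1 ≤ A) (c w : ℝ) :
    (A : ℝ)⁻¹ * ∑ k ∈ range A, ((c + (k : ℝ) / A) ^ 3 + (c + (k : ℝ) / A) * w) =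
      (c + (1 - (A : ℝ)⁻¹) / 2) ^ 3 +
      (c + (1 - (A : ℝ)⁻¹) / 2) * (w + (1 - (A : ℝ)⁻¹) * (2 - (1 - (A : ℝ)⁻¹)) / 4) := by
  obtain ⟨b, rfl⟩ : ∃ b, A = b + 1 := ⟨A - 1, by omega⟩
  have e : ∀ k ∈ range (b + 1), ((c + (k : ℝ) / ((b + 1 : ℕ) : ℝ)) ^ 3 +
      (c + (k : ℝ) / ((b + 1 : ℕ) : ℝ)) * w) = (c ^ 3 + c * w) +
      (3 * c ^ 2 + w) / ((b + 1 : ℕ) : ℝ) * (k : ℝ) +
      3 * c / ((b + 1 : ℕ) : ℝ) ^ 2 * (k : ℝ) ^ 2 + 1 / ((b + 1 : ℕ) : ℝ) ^ 3 * (k : ℝ) ^ 3 := by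
    intro k _
    have : ((b + 1 : ℕ) : ℝ) ≠ 0 := by positivity
    field_simp
    ring
  rw [Finset.sum_congr rfl e, Finset.sum_add_distrib, Finset.sum_add_distrib,
    Finset.sum_add_distrib, ← Finset.mul_sum, ← Finset.mul_sum, ← Finset.mul_sum, sum_pow1,
    sum_pow2, sum_pow3, Finset.sum_const, card_range, nsmul_eq_mul]
  have : ((b + 1 : ℕ) : ℝ) ≠ 0 := by positivity
  have h2 : (b : ℝ) + 1 ≠ 0 := by positivity
  push_cast
  field_simp
  ring

theorem E_b3 (a : ι → ℕ) (ha : ∀ i, 1 ≤ a i) (s : Finset ι) : ∀ y : ℝ,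
    E a s b3 y = (y + (∑ i ∈ s, pp a i) / 2 - 1 / 2) ^ 3 +
      (y + (∑ i ∈ s, pp a i) / 2 - 1 / 2) * ((∑ i ∈ s, pp a i * (2 - pp a i)) / 4 - 1 / 4) := by
  induction s using Finset.induction_on with
  | empty =>
    intro y
    rw [E_empty]
    unfold b3
    simp
    ring
  | insert i s hi ih =>
    intro y
    rw [E_insert' a s i hi]
    have e : ∀ k ∈ range (a i), E a s b3 (y + (k : ℝ) / a i) =
        ((y + (∑ i ∈ s, pp a i) / 2 - 1 / 2) + (k : ℝ) / a i) ^ 3 +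
        ((y + (∑ i ∈ s, pp a i) / 2 - 1 / 2) + (k : ℝ) / a i) *
          ((∑ i ∈ s, pp a i * (2 - pp a i)) / 4 - 1 / 4) := by
      intro k _
      rw [ih]
      ring
    rw [Finset.sum_congr rfl e, avg_cubic (a i) (ha i), Finset.sum_insert hi,
      Finset.sum_insert hi]
    unfold pp
    ring

theorem reflect_periodic (ψ : ℝ → ℝ) (hψ : ∀ x, ψ (x + 1) = ψ x) (A : ℕ) (hA : 1 ≤ A) (t : ℝ) :
    ∑ k ∈ range A, ψ (t - (k : ℝ) / A) = ∑ k ∈ range A, ψ (t + (k : ℝ) / A) := by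
  obtain ⟨b, rfl⟩ : ∃ b, A = b + 1 := ⟨A - 1, by omega⟩
  rw [Finset.sum_range_succ', Finset.sum_range_succ' (fun k ↦ ψ (t + (k : ℝ) / ((b + 1 : ℕ) : ℝ)))]
  congr 1
  · rw [← Finset.sum_range_reflect]
    apply Finset.sum_congr rfl
    intro k hk
    rw [mem_range] at hk
    rw [← hψ (t - _)]
    congr 1
    have h1 : ((b - 1 - k + 1 : ℕ) : ℝ) = (b : ℝ) - k := by
      rw [show b - 1 - k + 1 = b - k by omega, Nat.cast_sub hk.le]
    rw [h1]
    have : (b : ℝ) + 1 ≠ 0 := by positivity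
    push_cast
    field_simp
    ring
  · simp

theorem E_periodic (a : ι → ℕ) (s : Finset ι) (h : ℝ → ℝ) (hh : ∀ x, h (x + 1) = h x) (t : ℝ) :
    E a s h (t + 1) = E a s h t := by
  unfold E
  congr 1
  apply Finset.sum_congr rfl
  intro j _
  rw [← hh (t + val a j)]
  congr 1
  ring

theorem E_reflect (a : ι → ℕ) (ha : ∀ i, 1 ≤ a i) (s : Finset ι) (g : ℝ → ℝ)
    (hg : ∀ x, g (x + 1) = g x) : ∀ y : ℝ, E a s g y = E a s (fun x ↦ g (-x)) (-y) := by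
  have hg' : ∀ x, g (-(x + 1)) = g (-x) := by
    intro x
    rw [← hg (-(x + 1))]
    congr 1
    ring
  induction s using Finset.induction_on with
  | empty =>
    intro y
    rw [E_empty, E_empty]
    simp
  | insert i s hi ih =>
    intro y
    rw [E_insert' a s i hi, E_insert' a s i hi]
    congr 1
    have e : ∀ k ∈ range (a i), E a s g (y + (k : ℝ) / a i) =
        E a s (fun x ↦ g (-x)) (-y - (k : ℝ) / a i) := by
      intro k _
      rw [ih]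
      congr 1
      ring
    rw [Finset.sum_congr rfl e]
    exact reflect_periodic _ (E_periodic a s _ hg') (a i) (ha i) (-y)

theorem b3_fract_odd (x : ℝ) : b3 (Int.fract (-x)) = -b3 (Int.fract x) := by
  by_cases h : Int.fract x = 0
  · have h' : Int.fract (-x) = 0 := by
      rw [Int.fract_neg_eq_zero]
      exact h
    rw [h, h']
    unfold b3
    norm_num
  · rw [Int.fract_neg h]
    unfold b3
    ring

theorem E_odd (a : ι → ℕ) (ha : ∀ i, 1 ≤ a i) (s : Finset ι) :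
    E a s (fun x ↦ b3 (Int.fract x)) 0 = 0 := by
  have h := E_reflect a ha s (fun x ↦ b3 (Int.fract x)) (fun x ↦ by simp) 0
  have h2 : E a s (fun x ↦ b3 (Int.fract (-x))) (-0) = -E a s (fun x ↦ b3 (Int.fract x)) 0 := by
    rw [neg_zero]
    unfold E
    rw [← mul_neg, ← Finset.sum_neg_distrib]
    congr 1
    apply Finset.sum_congr rfl
    intro j _
    exact b3_fract_odd _
  linarith

theorem E_G32 (a : ι → ℕ) (ha : ∀ i, 1 ≤ a i) (s : Finset ι) :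
    E a s (G 3 2) 0 = ((∑ i ∈ s, pp a i) - 1) *
      ((∑ i ∈ s, pp a i) ^ 2 - ∑ i ∈ s, pp a i ^ 2) / 48 := by
  have e : E a s (G 3 2) 0 = E a s b3 0 / 6 - E a s (fun x ↦ b3 (Int.fract x)) 0 / 6 := by
    unfold E
    rw [mul_div_assoc, mul_div_assoc, ← mul_sub, Finset.sum_div, Finset.sum_div,
      ← Finset.sum_sub_distrib]
    congr 1
    apply Finset.sum_congr rfl
    intro j _
    rw [G_three_two _ (add_nonneg le_rfl (val_nonneg a j))]
    ring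
  rw [e, E_odd a ha, E_b3 a ha]
  have h : ∑ i ∈ s, pp a i * (2 - pp a i) = 2 * (∑ i ∈ s, pp a i) - ∑ i ∈ s, pp a i ^ 2 := by
    rw [Finset.mul_sum, ← Finset.sum_sub_distrib]
    apply Finset.sum_congr rfl
    intro i _
    ring
  rw [h]
  ring

end Pool.Agent.Helper85.KN
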