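import Pool.Agent.Helper85.KN.N3

/-!
# Dimension three, the final inequality
-/

namespace Pool.Agent.Helper85.KN

open Finset

variable {ι : Type*} [Fintype ι] [DecidableEq ι]

theorem G_at_zero (n k : ℕ) : G n (k + 1) 0 = cr (k + 1) n := by
  rw [G_poly cr cr_zero cr_conv (k + 1) n 0 le_rfl (Or.inl zero_lt_one), Finset.sum_range_succ']
  simp

theorem cr_three (k : ℕ) : cr (k + 2) 3 = (k : ℝ) * (k - 1) ^ 2 / 48 := by
  unfold cr
  rcases k with _ | k
  · rw [Pool.Agent.Helper87.KN.c_of_lt (by norm_num)]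
    simp
  · rw [show k + 1 + 2 = 3 + k by ring, Pool.Agent.Helper87.KN.c_add,
      Pool.Agent.Helper87.KN.a_n3]
    push_cast
    ring

theorem cr_one_three : cr 1 3 = 0 := by
  unfold cr
  rw [Pool.Agent.Helper87.KN.c_of_lt (by norm_num)]
  simp

theorem pp_mem (a : ι → ℕ) (ha : ∀ i, 1 ≤ a i) (i : ι) : 0 ≤ pp a i ∧ pp a i ≤ 1 := by
  unfold pp
  have h3 : (a i : ℝ)⁻¹ ≤ 1 := inv_le_one_of_one_le₀ (by exact_mod_cast ha i)
  have h4 : 0 ≤ (a i : ℝ)⁻¹ := by positivity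
  constructor <;> linarith

omit [Fintype ι] in
theorem PB_one (p : ι → ℝ) (s : Finset ι) : PB p s (fun _ ↦ 1) = 1 := by
  induction s using Finset.induction_on with
  | empty => rw [PB_empty]
  | insert i s hi ih => rw [PB_insert p s i hi, ih]; ring

omit [Fintype ι] in
theorem PB_choose_succ (p : ι → ℝ) (s : Finset ι) (m : ℕ) :
    ∑ i ∈ s, p i * PB p (s.erase i) (fun k ↦ (Nat.choose k m : ℝ)) =
      ((m : ℝ) + 1) * PB p s (fun k ↦ (Nat.choose k (m + 1) : ℝ)) := by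
  rw [PB_FB, ← PB_smul]
  apply PB_congr
  intro k _
  rcases k with _ | k
  · simp
  · rw [Nat.add_sub_cancel]
    have := Nat.add_one_mul_choose_eq k m
    have h : (((k + 1) * k.choose m : ℕ) : ℝ) = (((k + 1).choose (m + 1) * (m + 1) : ℕ) : ℝ) := by
      exact_mod_cast this
    push_cast at h
    push_cast
    linarith

omit [Fintype ι] in
theorem PB_choose_one (p : ι → ℝ) (s : Finset ι) :
    PB p s (fun k ↦ (Nat.choose k 1 : ℝ)) = ∑ i ∈ s, p i := by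
  have h := PB_choose_succ p s 0
  simp only [Nat.choose_zero_right, Nat.cast_one, CharP.cast_eq_zero, zero_add, one_mul] at h
  rw [← h]
  apply Finset.sum_congr rfl
  intro i _
  rw [PB_one, mul_one]

omit [Fintype ι] in
theorem PB_choose_two (p : ι → ℝ) (s : Finset ι) :
    PB p s (fun k ↦ (Nat.choose k 2 : ℝ)) =
      ((∑ i ∈ s, p i) ^ 2 - ∑ i ∈ s, p i ^ 2) / 2 := by
  have h := PB_choose_succ p s 1
  have e : ∑ i ∈ s, p i * PB p (s.erase i) (fun k ↦ (Nat.choose k 1 : ℝ)) =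
      (∑ i ∈ s, p i) ^ 2 - ∑ i ∈ s, p i ^ 2 := by
    have : ∀ i ∈ s, p i * PB p (s.erase i) (fun k ↦ (Nat.choose k 1 : ℝ)) =
        p i * (∑ l ∈ s, p l) - p i ^ 2 := by
      intro i hi
      rw [PB_choose_one, ← Finset.add_sum_erase s p hi]
      ring
    rw [Finset.sum_congr rfl this, Finset.sum_sub_distrib, ← Finset.sum_mul]
    ring
  rw [e] at h
  norm_num at h
  linarith

/-- The replacement of one variable in dimension three. -/
theorem step3 (a : ι → ℕ) (ha : ∀ i, 1 ≤ a i) (s : Finset ι) (l : ι) (hl : l ∈ s) :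
    E a s (G 3 1) 0 ≤ PB (pp a) s (fun k ↦ cr (k + 1) 3) -
      pp a l * (∑ i ∈ s.erase l, (1 - pp a i) * pp a i *
        ((∑ m ∈ s.erase l, pp a m) - pp a i)) / 24 := by
  have h1 := E_erase a s l hl (G 3 1) 0
  have h2 : E a (s.erase l) (T (a l) (G 3 1)) 0 ≤ E a (s.erase l)
      (fun x ↦ (a l : ℝ)⁻¹ * G 3 1 x + (1 - (a l : ℝ)⁻¹) * G 3 2 x) 0 :=
    E_le a _ _ _ 0 le_rfl (fun x hx ↦ vstep_one 1 (a l) (ha l) x hx)
  rw [E_lin, E_G32 a ha] at h2
  have h3 := E_le_PB a ha 1 (s.erase l) 0 0 le_rfl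
  have e3 : (fun k ↦ G (1 + 2) (0 + 1 + k) 0) = fun k ↦ cr (k + 1) 3 := by
    funext k
    rw [show 0 + 1 + k = k + 1 by ring]
    exact G_at_zero 3 k
  rw [e3] at h3
  have h4 : (0 : ℝ) ≤ (a l : ℝ)⁻¹ := by positivity
  have h5 := mul_le_mul_of_nonneg_left h3 h4
  have h6 : PB (pp a) (s.erase l) (fun k ↦ cr (k + 1 + 1) 3) =
      PB (pp a) (s.erase l) (fun k ↦ (Nat.choose k 3 : ℝ)) / 8 +
        PB (pp a) (s.erase l) (fun k ↦ (Nat.choose k 2 : ℝ)) / 24 := by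
    have : PB (pp a) (s.erase l) (fun k ↦ (1 / 8 : ℝ) * (Nat.choose k 3 : ℝ) +
        (1 / 24 : ℝ) * (Nat.choose k 2 : ℝ)) = _ := PB_add _ _ _ _
    rw [PB_smul, PB_smul] at this
    rw [div_eq_inv_mul, div_eq_inv_mul, ← one_div, ← one_div, ← this]
    apply PB_congr
    intro k _
    rw [cr_three, choose_three_real, Nat.cast_choose_two]
    ring
  have h7 : (3 : ℝ) * PB (pp a) (s.erase l) (fun k ↦ (Nat.choose k 3 : ℝ)) =
      ∑ i ∈ s.erase l, pp a i * PB (pp a) ((s.erase l).erase i) (fun k ↦ (Nat.choose k 2 : ℝ)) := by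
    rw [PB_choose_succ]
    norm_num
  set t := s.erase l with ht
  set S := ∑ m ∈ t, pp a m with hS
  set Q := ∑ m ∈ t, pp a m ^ 2 with hQ
  have h8 : ∀ i ∈ t, PB (pp a) (t.erase i) (fun k ↦ (Nat.choose k 2 : ℝ)) =
      ((S - pp a i) ^ 2 - (Q - pp a i ^ 2)) / 2 := by
    intro i hi
    rw [PB_choose_two, hS, hQ, ← Finset.add_sum_erase t _ hi,
      ← Finset.add_sum_erase t (fun m ↦ pp a m ^ 2) hi]
    ring
  have h9 : (3 : ℝ) * PB (pp a) t (fun k ↦ (Nat.choose k 3 : ℝ)) =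
      ∑ i ∈ t, pp a i * (((S - pp a i) ^ 2 - (Q - pp a i ^ 2)) / 2) := by
    rw [h7]
    apply Finset.sum_congr rfl
    intro i hi
    rw [h8 i hi]
  have h10 : ∑ i ∈ t, pp a i * (((S - pp a i) ^ 2 - (Q - pp a i ^ 2)) / 2) =
      (S ^ 3 - S * Q) / 2 - S * Q + ∑ i ∈ t, pp a i ^ 3 := by
    have : ∀ i ∈ t, pp a i * (((S - pp a i) ^ 2 - (Q - pp a i ^ 2)) / 2) =
        (S ^ 2 - Q) / 2 * pp a i - S * pp a i ^ 2 + pp a i ^ 3 := by
      intro i _; ring
    rw [Finset.sum_congr rfl this, Finset.sum_add_distrib, Finset.sum_sub_distrib,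
      ← Finset.mul_sum, ← Finset.mul_sum]
    ring
  have h11 : ∑ i ∈ t, (1 - pp a i) * pp a i * (S - pp a i) =
      S * S - S * Q - Q + ∑ i ∈ t, pp a i ^ 3 := by
    have : ∀ i ∈ t, (1 - pp a i) * pp a i * (S - pp a i) =
        S * pp a i - S * pp a i ^ 2 - pp a i ^ 2 + pp a i ^ 3 := by
      intro i _; ring
    rw [Finset.sum_congr rfl this, Finset.sum_add_distrib, Finset.sum_sub_distrib,
      Finset.sum_sub_distrib, ← Finset.mul_sum, ← Finset.mul_sum]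
  have h12 := PB_erase (pp a) s l hl (fun k ↦ cr (k + 1) 3)
  rw [h6, PB_choose_two] at h12
  have e13 : (a l : ℝ)⁻¹ = 1 - pp a l := by unfold pp; ring
  rw [h11]
  rw [h12]
  rw [e13] at h2 h5
  simp only [sub_sub_cancel] at h2
  rw [h1]
  have h14 := h9.trans h10
  have h15 : PB (pp a) t (fun k ↦ (Nat.choose k 3 : ℝ)) =
      ((S ^ 3 - S * Q) / 2 - S * Q + ∑ i ∈ t, pp a i ^ 3) / 3 := by linarith
  rw [h15]
  refine h2.trans ?_
  have h16 : (1 - pp a l) * E a t (G 3 1) 0 ≤ (1 - pp a l) * PB (pp a) t (fun k ↦ cr (k + 1) 3) := h5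
  nlinarith [h16]

end Pool.Agent.Helper85.KN
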