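import Pool.Agent.Helper85.KN.N3b

/-!
# Dimension three, the theorem
-/

namespace Pool.Agent.Helper85.KN

open Finset

variable {ι : Type*} [Fintype ι] [DecidableEq ι]

omit [Fintype ι] in
theorem swap3 (p : ι → ℝ) (s : Finset ι) :
    ∑ l ∈ s, p l * (∑ i ∈ s.erase l, (1 - p i) * p i * ((∑ m ∈ s.erase l, p m) - p i)) / 24 =
      ∑ i ∈ s, (1 - p i) * p i * PB p (s.erase i) (fun k ↦ (1 / 12 : ℝ) * (Nat.choose k 2 : ℝ)) := by
  have h1 : ∀ l ∈ s, p l * (∑ i ∈ s.erase l, (1 - p i) * p i * ((∑ m ∈ s.erase l, p m) - p i)) / 24 =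
      ∑ i ∈ s.erase l, p l * ((1 - p i) * p i * ((∑ m ∈ s, p m) - p l - p i)) / 24 := by
    intro l hl
    rw [Finset.mul_sum, Finset.sum_div]
    apply Finset.sum_congr rfl
    intro i _
    rw [← Finset.add_sum_erase s p hl]
    ring
  have h2 : ∀ i ∈ s, (1 - p i) * p i * PB p (s.erase i) (fun k ↦ (1 / 12 : ℝ) * (Nat.choose k 2 : ℝ)) =
      ∑ l ∈ s.erase i, p l * ((1 - p i) * p i * ((∑ m ∈ s, p m) - p l - p i)) / 24 := by
    intro i hi
    rw [PB_smul, PB_choose_two]
    have : ∀ l ∈ s.erase i, p l * ((1 - p i) * p i * ((∑ m ∈ s, p m) - p l - p i)) / 24 =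
        ((1 - p i) * p i * ((∑ m ∈ s, p m) - p i) / 24) * p l - ((1 - p i) * p i / 24) * p l ^ 2 := by
      intro l _
      ring
    rw [Finset.sum_congr rfl this, Finset.sum_sub_distrib, ← Finset.mul_sum, ← Finset.mul_sum,
      ← Finset.add_sum_erase s p hi]
    ring
  rw [Finset.sum_congr rfl h1, Finset.sum_congr rfl h2]
  apply Finset.sum_comm'
  intro x y
  simp only [mem_erase]
  tauto

theorem sum_step3 (a : ι → ℕ) (ha : ∀ i, 1 ≤ a i) (s : Finset ι) :
    (s.card : ℝ) * E a s (G 3 1) 0 ≤ (s.card : ℝ) * PB (pp a) s (fun k ↦ cr (k + 1) 3) -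
      ∑ i ∈ s, (1 - pp a i) * pp a i *
        PB (pp a) (s.erase i) (fun k ↦ (1 / 12 : ℝ) * (Nat.choose k 2 : ℝ)) := by
  have h := Finset.sum_le_sum (fun l hl ↦ step3 a ha s l hl)
  rw [Finset.sum_sub_distrib, Finset.sum_const, Finset.sum_const, nsmul_eq_mul, nsmul_eq_mul,
    swap3 (pp a) s] at h
  exact h

theorem final3 (a : ι → ℕ) (ha : ∀ i, 2 ≤ a i) (s : Finset ι) (hs : 3 ≤ s.card) (z : ℝ)
    (hz : 0 ≤ z) (hza : ∀ i ∈ s, z ≤ (a i : ℝ)⁻¹) :
    E a s (G 3 1) 0 ≤ (((s.card : ℝ) - 2) / (8 * s.card)) *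
      (PB (pp a) s (fun k ↦ (Nat.choose k 3 : ℝ)) -
        z * PB (pp a) s (fun k ↦ (Nat.choose (k - 1) (3 - 1) : ℝ))) := by
  have hM : (3 : ℝ) ≤ s.card := by exact_mod_cast hs
  have hM0 : (0 : ℝ) < s.card := by linarith
  have hp : ∀ i ∈ s, 1 / 2 ≤ pp a i ∧ pp a i ≤ 1 ∧ z ≤ 1 - pp a i := by
    intro i hi
    have h1 : (a i : ℝ)⁻¹ ≤ 2⁻¹ := inv_anti₀ (by norm_num) (by exact_mod_cast ha i)
    have h2 : 0 ≤ (a i : ℝ)⁻¹ := by positivity
    have h3 := hza i hi
    rw [← one_div (2 : ℝ)] at h1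
    unfold pp
    exact ⟨by linarith, by linarith, by linarith⟩
  have key := final_of_cert 3 (pp a) s z (((s.card : ℝ) - 2) / (8 * s.card))
    (fun k ↦ (Nat.choose (k - 1) 2 : ℝ) / (12 * s.card))
    (fun k ↦ if 4 ≤ s.card then ((Nat.choose k 2 : ℝ) + ((s.card : ℝ) - 4) / 2) / 24 else 0)
    (fun k ↦ (1 / 12 : ℝ) * (Nat.choose k 2 : ℝ)) hz hp ?_ ?_ ?_ ?_ ?_
  · have h1 := (sum_step3 a (fun i ↦ by have := ha i; omega) s).trans key
    rw [mul_assoc] at h1
    exact le_of_mul_le_mul_left h1 hM0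
  · intro k _
    rcases k with _ | k
    · simp [cr_one_three]
    · rw [cr_three, choose_three_real, Nat.add_sub_cancel, Nat.cast_choose_two]
      push_cast
      field_simp
      ring
  · intro k
    positivity
  · intro k
    positivity
  · intro k
    split_ifs with h
    · have : (4 : ℝ) ≤ s.card := by exact_mod_cast h
      have h2 : (0 : ℝ) ≤ Nat.choose k 2 := by positivity
      have h3 : 0 ≤ ((s.card : ℝ) - 4) / 2 := by linarith
      positivity
    · exact le_rfl
  · intro k hk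
    have hkM : (k : ℝ) ≤ s.card := by exact_mod_cast hk
    have e1 : ∀ x y : ℝ, (s.card : ℝ) * (x * (y / (12 * s.card))) = x * y / 12 := by
      intro x y
      field_simp
    rw [mul_add, e1, e1]
    have e2 : (s.card : ℝ) * (((s.card : ℝ) - 2) / (8 * s.card)) = ((s.card : ℝ) - 2) / 8 := by
      field_simp
    rw [e2]
    rcases k with _ | _ | k
    · simp only [CharP.cast_eq_zero, Nat.zero_sub, zero_mul, zero_sub]
      norm_num
      split_ifs with h
      · have : (4 : ℝ) ≤ s.card := by exact_mod_cast h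
        have : 0 ≤ (s.card : ℝ) * (((s.card : ℝ) - 4) / 2 / 24) := by
          apply mul_nonneg hM0.le; linarith
        linarith
      · simp
    · norm_num
      split_ifs with h
      · have : (4 : ℝ) ≤ s.card := by exact_mod_cast h
        nlinarith
      · simp
    · rw [show k + 1 + 1 - 1 = k + 1 by omega, show k + 1 - 1 = k by omega,
        show 3 - 1 = 2 by norm_num, Nat.cast_choose_two ℝ k, Nat.cast_choose_two ℝ (k + 1),
        Nat.cast_choose_two ℝ (k + 1 + 1)]
      push_cast at hkM ⊢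
      have hk0 : (0 : ℝ) ≤ k := by positivity
      split_ifs with h
      · have h4 : (4 : ℝ) ≤ s.card := by exact_mod_cast h
        nlinarith [mul_nonneg hk0 hk0]
      · have h3 : (s.card : ℝ) = 3 := by
          have : s.card = 3 := by omega
          exact_mod_cast this
        rw [h3] at hkM ⊢
        have hk1 : k ≤ 1 := by
          have : (k : ℝ) ≤ 1 := by linarith
          exact_mod_cast this
        interval_cases k <;> norm_num

end Pool.Agent.Helper85.KN
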