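import Pool.Agent.Helper85.KN.Box

/-!
# Poisson-binomial means
-/

namespace Pool.Agent.Helper85.KN

open Finset

variable {ι : Type*} [DecidableEq ι]

theorem PB_add (p : ι → ℝ) (s : Finset ι) (f g : ℕ → ℝ) :
    PB p s (fun k ↦ f k + g k) = PB p s f + PB p s g := by
  unfold PB
  rw [← Finset.sum_add_distrib]
  exact Finset.sum_congr rfl fun K _ ↦ by ring

theorem PB_sub (p : ι → ℝ) (s : Finset ι) (f g : ℕ → ℝ) :
    PB p s (fun k ↦ f k - g k) = PB p s f - PB p s g := by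
  unfold PB
  rw [← Finset.sum_sub_distrib]
  exact Finset.sum_congr rfl fun K _ ↦ by ring

theorem PB_smul (p : ι → ℝ) (s : Finset ι) (c : ℝ) (f : ℕ → ℝ) :
    PB p s (fun k ↦ c * f k) = c * PB p s f := by
  unfold PB
  rw [Finset.mul_sum]
  exact Finset.sum_congr rfl fun K _ ↦ by ring

theorem PB_congr (p : ι → ℝ) (s : Finset ι) (f g : ℕ → ℝ) (h : ∀ k ≤ s.card, f k = g k) :
    PB p s f = PB p s g := by
  unfold PB
  refine Finset.sum_congr rfl fun K hK ↦ ?_
  rw [mem_powerset] at hK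
  rw [h _ (card_le_card hK)]

theorem wt_nonneg (p : ι → ℝ) (s K : Finset ι) (hK : K ⊆ s)
    (hp : ∀ i ∈ s, 0 ≤ p i ∧ p i ≤ 1) : 0 ≤ wt p s K := by
  unfold wt
  apply mul_nonneg
  · exact Finset.prod_nonneg fun i hi ↦ (hp i (hK hi)).1
  · exact Finset.prod_nonneg fun i hi ↦ by linarith [(hp i (mem_sdiff.1 hi).1).2]

theorem PB_mono (p : ι → ℝ) (s : Finset ι) (f g : ℕ → ℝ) (hp : ∀ i ∈ s, 0 ≤ p i ∧ p i ≤ 1)
    (h : ∀ k ≤ s.card, f k ≤ g k) : PB p s f ≤ PB p s g := by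
  unfold PB
  refine Finset.sum_le_sum fun K hK ↦ ?_
  rw [mem_powerset] at hK
  exact mul_le_mul_of_nonneg_left (h _ (card_le_card hK)) (wt_nonneg p s K hK hp)

theorem PB_nonneg (p : ι → ℝ) (s : Finset ι) (f : ℕ → ℝ) (hp : ∀ i ∈ s, 0 ≤ p i ∧ p i ≤ 1)
    (h : ∀ k ≤ s.card, 0 ≤ f k) : 0 ≤ PB p s f := by
  unfold PB
  refine Finset.sum_nonneg fun K hK ↦ ?_
  rw [mem_powerset] at hK
  exact mul_nonneg (wt_nonneg p s K hK hp) (h _ (card_le_card hK))

theorem PB_erase (p : ι → ℝ) (s : Finset ι) (i : ι) (hi : i ∈ s) (f : ℕ → ℝ) :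
    PB p s f = (1 - p i) * PB p (s.erase i) f + p i * PB p (s.erase i) (fun k ↦ f (k + 1)) := by
  conv_lhs => rw [← Finset.insert_erase hi]
  exact PB_insert p _ i (Finset.notMem_erase i s) f

/-- **FA.** -/
theorem PB_FA (p : ι → ℝ) (s : Finset ι) (f : ℕ → ℝ) :
    ∑ i ∈ s, (1 - p i) * PB p (s.erase i) f = PB p s (fun k ↦ ((s.card : ℝ) - k) * f k) := by
  unfold PB
  have h1 : ∀ i ∈ s, (1 - p i) * ∑ K ∈ (s.erase i).powerset, wt p (s.erase i) K * f K.card =
      ∑ K ∈ (s.erase i).powerset, wt p s K * f K.card := by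
    intro i hi
    rw [Finset.mul_sum]
    refine Finset.sum_congr rfl fun K hK ↦ ?_
    rw [mem_powerset] at hK
    have hiK : i ∉ K := fun h ↦ (mem_erase.1 (hK h)).1 rfl
    have : s \ K = insert i ((s.erase i) \ K) := by
      ext x
      simp only [mem_sdiff, mem_insert, mem_erase]
      by_cases hx : x = i
      · subst hx; simp [hi, hiK]
      · simp [hx]
    unfold wt
    rw [this, Finset.prod_insert (by simp)]
    ring
  rw [Finset.sum_congr rfl h1]
  rw [Finset.sum_comm' (t' := s.powerset) (s' := fun K ↦ s \ K)]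
  · refine Finset.sum_congr rfl fun K hK ↦ ?_
    rw [mem_powerset] at hK
    rw [Finset.sum_const, Finset.card_sdiff_of_subset hK, nsmul_eq_mul,
      Nat.cast_sub (card_le_card hK)]
    ring
  · intro i K
    simp only [mem_powerset, mem_sdiff]
    constructor
    · rintro ⟨h1, h2⟩
      exact ⟨⟨h1, fun h ↦ (mem_erase.1 (h2 h)).1 rfl⟩, h2.trans (erase_subset _ _)⟩
    · rintro ⟨⟨h1, h2⟩, h3⟩
      refine ⟨h1, fun x hx ↦ mem_erase.2 ⟨?_, h3 hx⟩⟩
      rintro rfl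
      exact h2 hx

/-- **FB.** -/
theorem PB_FB (p : ι → ℝ) (s : Finset ι) (f : ℕ → ℝ) :
    ∑ i ∈ s, p i * PB p (s.erase i) f = PB p s (fun k ↦ (k : ℝ) * f (k - 1)) := by
  unfold PB
  have h1 : ∀ i ∈ s, p i * ∑ K ∈ (s.erase i).powerset, wt p (s.erase i) K * f K.card =
      ∑ K ∈ s.powerset.filter (fun K ↦ i ∈ K), wt p s K * f (K.card - 1) := by
    intro i hi
    rw [Finset.mul_sum]
    refine Finset.sum_bij' (fun K _ ↦ insert i K) (fun K _ ↦ K.erase i) ?_ ?_ ?_ ?_ ?_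
    · intro K hK
      rw [mem_powerset] at hK
      rw [mem_filter, mem_powerset]
      refine ⟨?_, mem_insert_self _ _⟩
      intro x hx
      rcases mem_insert.1 hx with h | h
      · exact h ▸ hi
      · exact (mem_erase.1 (hK h)).2
    · intro K hK
      rw [mem_filter, mem_powerset] at hK
      rw [mem_powerset]
      exact erase_subset_erase _ hK.1
    · intro K hK
      rw [mem_powerset] at hK
      exact erase_insert (fun h ↦ (mem_erase.1 (hK h)).1 rfl)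
    · intro K hK
      rw [mem_filter] at hK
      exact insert_erase hK.2
    · intro K hK
      rw [mem_powerset] at hK
      have hiK : i ∉ K := fun h ↦ (mem_erase.1 (hK h)).1 rfl
      rw [card_insert_of_notMem hiK, Nat.add_sub_cancel]
      unfold wt
      have : s \ insert i K = (s.erase i) \ K := by
        ext x
        simp only [mem_sdiff, mem_insert, mem_erase]
        tauto
      rw [this, prod_insert hiK]
      ring
  rw [Finset.sum_congr rfl h1]
  have h2 : ∀ i ∈ s, ∑ K ∈ s.powerset.filter (fun K ↦ i ∈ K), wt p s K * f (K.card - 1) =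
      ∑ K ∈ s.powerset, if i ∈ K then wt p s K * f (K.card - 1) else 0 := by
    intro i _
    rw [Finset.sum_filter]
  rw [Finset.sum_congr rfl h2, Finset.sum_comm]
  refine Finset.sum_congr rfl fun K hK ↦ ?_
  rw [mem_powerset] at hK
  rw [← Finset.sum_filter, Finset.sum_const]
  have : s.filter (fun i ↦ i ∈ K) = K := by
    ext x
    rw [mem_filter]
    exact ⟨fun h ↦ h.2, fun h ↦ ⟨hK h, h⟩⟩
  rw [this, nsmul_eq_mul]
  ring

/-- **FC.** -/
theorem PB_FC (p : ι → ℝ) (s : Finset ι) (f : ℕ → ℝ) (hp : ∀ i ∈ s, 1 / 2 ≤ p i ∧ p i ≤ 1)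
    (hf : ∀ k, 0 ≤ f k) :
    0 ≤ PB p s (fun k ↦ (k : ℝ) * f (k - 1) - ((s.card : ℝ) - k) * f k) := by
  rw [PB_sub, ← PB_FA, ← PB_FB, ← Finset.sum_sub_distrib]
  refine Finset.sum_nonneg fun i hi ↦ ?_
  have h1 : 0 ≤ PB p (s.erase i) f := PB_nonneg p _ f (fun l hl ↦ by
    have := hp l (mem_of_mem_erase hl)
    exact ⟨by linarith [this.1], this.2⟩) (fun k _ ↦ hf k)
  have h2 := (hp i hi).1
  nlinarith

/-- The certificate lemma. -/
theorem PB_cert (p : ι → ℝ) (s : Finset ι) (Ψ f : ℕ → ℝ) (hp : ∀ i ∈ s, 1 / 2 ≤ p i ∧ p i ≤ 1)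
    (hf : ∀ k, 0 ≤ f k)
    (h : ∀ k ≤ s.card, (k : ℝ) * f (k - 1) - ((s.card : ℝ) - k) * f k ≤ Ψ k) :
    0 ≤ PB p s Ψ :=
  (PB_FC p s f hp hf).trans (PB_mono p s _ _ (fun l hl ↦ by
    have := hp l hl
    exact ⟨by linarith [this.1], this.2⟩) h)

end Pool.Agent.Helper85.KN
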