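import Pool.Agent.Helper85.KN.PBF
import Pool.Agent.Helper85.KN.GPoly
import Pool.Agent.Helper87.KN.Last

/-!
# The reduction
-/

namespace Pool.Agent.Helper85.KN

open Finset

/-- `c k n` as a real number. -/
noncomputable def cr (k n : ℕ) : ℝ := (Pool.Agent.Helper87.KN.c k n : ℝ)

/-- `h n k` as a real number. -/
noncomputable def hr (n k : ℕ) : ℝ := (Pool.Agent.Helper87.KN.h n k : ℝ)

theorem cr_zero (n : ℕ) : cr 0 n = if n = 0 then 1 else 0 := by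
  unfold cr
  rcases Nat.eq_zero_or_pos n with h | h
  · subst h
    simp [Pool.Agent.Helper87.KN.c_zero_zero]
  · rw [Pool.Agent.Helper87.KN.c_of_lt h, if_neg (by omega)]
    simp

theorem cr_conv (k n : ℕ) : cr (k + 1) n = ∑ q ∈ range (n + 1),
    if q ≤ k then cr (k - q) (n - q) / ((q + 1).factorial : ℝ) else 0 := by
  unfold cr
  rw [Pool.Agent.Helper87.KN.conv]
  push_cast
  apply Finset.sum_congr rfl
  intro q _
  split_ifs <;> simp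

theorem T_G_le (n k A : ℕ) (hn : 2 ≤ n) (hA : 1 ≤ A) :
    T A (G n (k + 1)) 0 ≤ (A : ℝ)⁻¹ * cr (k + 1) n + (1 - (A : ℝ)⁻¹) * cr (k + 2) n -
      (A : ℝ)⁻¹ * (1 - (A : ℝ)⁻¹) * hr n k := by
  have hA0 : (0 : ℝ) < A := by exact_mod_cast hA
  have h := Pool.Agent.Helper87.KN.last n k A hn hA
  have h' : ((((1 / (A : ℚ)) * ∑ t ∈ Finset.range A, ∑ q ∈ Finset.range (n + 1),
      (if q ≤ k + 1 then Pool.Agent.Helper87.KN.c (k + 1 - q) (n - q) else 0) *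
        ((t : ℚ) / A) ^ q / (q.factorial : ℚ)) : ℚ) : ℝ) ≤
      (((1 / (A : ℚ)) * Pool.Agent.Helper87.KN.c (k + 1) n +
        (1 - 1 / (A : ℚ)) * Pool.Agent.Helper87.KN.c (k + 2) n
      - (1 / (A : ℚ)) * (1 - 1 / (A : ℚ)) * Pool.Agent.Helper87.KN.h n k : ℚ) : ℝ) := by
    exact_mod_cast h
  have e : T A (G n (k + 1)) 0 = ((((1 / (A : ℚ)) * ∑ t ∈ Finset.range A,
      ∑ q ∈ Finset.range (n + 1),
      (if q ≤ k + 1 then Pool.Agent.Helper87.KN.c (k + 1 - q) (n - q) else 0) *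
        ((t : ℚ) / A) ^ q / (q.factorial : ℚ)) : ℚ) : ℝ) := by
    unfold T
    push_cast
    rw [one_div]
    congr 1
    apply Finset.sum_congr rfl
    intro t ht
    rw [mem_range] at ht
    rw [G_poly cr cr_zero cr_conv (k + 1) n (0 + (t : ℝ) / A) (by positivity)
      (Or.inl (by rw [zero_add, div_lt_one hA0]; exact_mod_cast ht))]
    apply Finset.sum_congr rfl
    intro q _
    rw [zero_add]
    unfold cr
    split_ifs
    · ring
    · simp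
  rw [e]
  refine h'.trans (le_of_eq ?_)
  unfold cr hr
  push_cast
  simp only [one_div]

variable {ι : Type*} [Fintype ι] [DecidableEq ι]

/-- `p_i = 1 - 1/a_i`. -/
noncomputable def pp (a : ι → ℕ) (i : ι) : ℝ := 1 - (a i : ℝ)⁻¹

omit [Fintype ι] in
theorem PB_T (p : ι → ℝ) (s : Finset ι) (A : ℕ) (g : ℕ → ℝ → ℝ) :
    (A : ℝ)⁻¹ * ∑ k ∈ range A, PB p s (fun m ↦ g m (0 + (k : ℝ) / A)) =
      PB p s (fun m ↦ T A (g m) 0) := by
  unfold PB T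
  rw [Finset.sum_comm, Finset.mul_sum]
  apply Finset.sum_congr rfl
  intro K _
  rw [← Finset.mul_sum]
  ring

theorem step_i (n : ℕ) (hn : 2 ≤ n) (a : ι → ℕ) (ha : ∀ i, 1 ≤ a i) (s : Finset ι) (i : ι)
    (hi : i ∈ s) :
    E a s (G n 1) 0 ≤ PB (pp a) s (fun k ↦ cr (k + 1) n) -
      (1 - pp a i) * pp a i * PB (pp a) (s.erase i) (hr n) := by
  obtain ⟨m, rfl⟩ : ∃ m, n = m + 2 := ⟨n - 2, by omega⟩
  rw [E_erase' a s i hi]
  have h1 : ∀ k ∈ range (a i), E a (s.erase i) (G (m + 2) 1) (0 + (k : ℝ) / a i) ≤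
      PB (pp a) (s.erase i) (fun q ↦ G (m + 2) (q + 1) (0 + (k : ℝ) / a i)) := by
    intro k _
    have := E_le_PB a ha m (s.erase i) 0 (0 + (k : ℝ) / a i) (by positivity)
    have e : (fun q ↦ G (m + 2) (0 + 1 + q) (0 + (k : ℝ) / a i)) =
        fun q ↦ G (m + 2) (q + 1) (0 + (k : ℝ) / a i) := by
      funext q
      rw [show 0 + 1 + q = q + 1 by ring]
    rw [e] at this
    exact this
  have h2 : (a i : ℝ)⁻¹ * ∑ k ∈ range (a i), E a (s.erase i) (G (m + 2) 1) (0 + (k : ℝ) / a i) ≤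
      (a i : ℝ)⁻¹ * ∑ k ∈ range (a i), PB (pp a) (s.erase i)
        (fun q ↦ G (m + 2) (q + 1) (0 + (k : ℝ) / a i)) := by
    apply mul_le_mul_of_nonneg_left (Finset.sum_le_sum h1) (by positivity)
  rw [PB_T (pp a) (s.erase i) (a i) (fun q ↦ G (m + 2) (q + 1))] at h2
  have hp : ∀ l ∈ s.erase i, 0 ≤ pp a l ∧ pp a l ≤ 1 := by
    intro l _
    unfold pp
    have h3 : (a l : ℝ)⁻¹ ≤ 1 := inv_le_one_of_one_le₀ (by exact_mod_cast ha l)
    have h4 : 0 ≤ (a l : ℝ)⁻¹ := by positivity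
    constructor <;> linarith
  have h3 := PB_mono (pp a) (s.erase i) (fun q ↦ T (a i) (G (m + 2) (q + 1)) 0)
    (fun q ↦ ((a i : ℝ)⁻¹ * cr (q + 1) (m + 2) + (1 - (a i : ℝ)⁻¹) * cr (q + 2) (m + 2)) -
      (a i : ℝ)⁻¹ * (1 - (a i : ℝ)⁻¹) * hr (m + 2) q) hp
    (fun q _ ↦ T_G_le (m + 2) q (a i) hn (ha i))
  refine (h2.trans h3).trans (le_of_eq ?_)
  rw [PB_sub, PB_add, PB_smul, PB_smul, PB_smul, PB_erase (pp a) s i hi]
  unfold pp
  simp only [sub_sub_cancel]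

theorem sum_step (n : ℕ) (hn : 2 ≤ n) (a : ι → ℕ) (ha : ∀ i, 1 ≤ a i) (s : Finset ι) :
    (s.card : ℝ) * E a s (G n 1) 0 ≤ (s.card : ℝ) * PB (pp a) s (fun k ↦ cr (k + 1) n) -
      ∑ i ∈ s, (1 - pp a i) * pp a i * PB (pp a) (s.erase i) (hr n) := by
  have h := Finset.sum_le_sum (fun i hi ↦ step_i n hn a ha s i hi)
  rw [Finset.sum_sub_distrib, Finset.sum_const, Finset.sum_const, nsmul_eq_mul, nsmul_eq_mul] at h
  exact h

omit [Fintype ι] in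
/-- The final inequality from the certificate. -/
theorem final_of_cert (n : ℕ) (p : ι → ℝ) (s : Finset ι) (z ρ : ℝ) (F u h : ℕ → ℝ)
    (hz : 0 ≤ z) (hp : ∀ i ∈ s, 1 / 2 ≤ p i ∧ p i ≤ 1 ∧ z ≤ 1 - p i)
    (hF : ∀ k ≤ s.card, ((s.card : ℝ) - k) * F k = ρ * (Nat.choose k n : ℝ) - cr (k + 1) n)
    (hF0 : ∀ k, 0 ≤ F k) (hh0 : ∀ k, 0 ≤ h k) (hu0 : ∀ k, 0 ≤ u k)
    (hc : ∀ k ≤ s.card, (k : ℝ) * u (k - 1) - ((s.card : ℝ) - k) * u k ≤
      (s.card : ℝ) * ((k : ℝ) * F (k - 1) + ((s.card : ℝ) - k) * F k) + (k : ℝ) * h (k - 1) -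
        (s.card : ℝ) * ρ * (Nat.choose (k - 1) (n - 1) : ℝ)) :
    (s.card : ℝ) * PB p s (fun k ↦ cr (k + 1) n) -
      ∑ i ∈ s, (1 - p i) * p i * PB p (s.erase i) h ≤
    (s.card : ℝ) * ρ * (PB p s (fun k ↦ (Nat.choose k n : ℝ)) -
      z * PB p s (fun k ↦ (Nat.choose (k - 1) (n - 1) : ℝ))) := by
  have hp' : ∀ i ∈ s, 1 / 2 ≤ p i ∧ p i ≤ 1 := fun i hi ↦ ⟨(hp i hi).1, (hp i hi).2.1⟩
  have hp0 : ∀ i ∈ s, 0 ≤ p i ∧ p i ≤ 1 := fun i hi ↦ ⟨by linarith [(hp i hi).1], (hp i hi).2.1⟩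
  have h1 := PB_cert p s _ u hp' hu0 hc
  rw [PB_sub, PB_add, PB_smul, PB_add, PB_smul, ← PB_FA, ← PB_FB, ← PB_FB] at h1
  have h2 : PB p s (fun k ↦ cr (k + 1) n) = ρ * PB p s (fun k ↦ (Nat.choose k n : ℝ)) -
      ∑ i ∈ s, (1 - p i) * PB p (s.erase i) F := by
    rw [PB_FA, ← PB_smul, ← PB_sub]
    apply PB_congr
    intro k hk
    rw [hF k hk]
    ring
  rw [h2]
  have hM : (0 : ℝ) ≤ s.card := by positivity
  have h3 : z * ((s.card : ℝ) * ((∑ i ∈ s, p i * PB p (s.erase i) F) +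
      ∑ i ∈ s, (1 - p i) * PB p (s.erase i) F) + ∑ i ∈ s, p i * PB p (s.erase i) h) ≤
      (s.card : ℝ) * (∑ i ∈ s, (1 - p i) * PB p (s.erase i) F) +
        ∑ i ∈ s, (1 - p i) * p i * PB p (s.erase i) h := by
    rw [← Finset.sum_add_distrib, Finset.mul_sum, ← Finset.sum_add_distrib, Finset.mul_sum,
      Finset.mul_sum, ← Finset.sum_add_distrib]
    apply Finset.sum_le_sum
    intro i hi
    obtain ⟨hp1, hp2, hp3⟩ := hp i hi
    have hq : ∀ l ∈ s.erase i, 0 ≤ p l ∧ p l ≤ 1 := fun l hl ↦ hp0 l (mem_of_mem_erase hl)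
    have a1 : 0 ≤ PB p (s.erase i) F := PB_nonneg p _ F hq (fun k _ ↦ hF0 k)
    have a2 : 0 ≤ PB p (s.erase i) h := PB_nonneg p _ h hq (fun k _ ↦ hh0 k)
    have a3 : 0 ≤ (s.card : ℝ) * PB p (s.erase i) F := mul_nonneg hM a1
    have a4 : 0 ≤ p i * PB p (s.erase i) h := mul_nonneg (by linarith) a2
    have a5 := mul_le_mul_of_nonneg_right hp3 a3
    have a6 := mul_le_mul_of_nonneg_right hp3 a4
    nlinarith
  have h4 := mul_le_mul_of_nonneg_left h1 hz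
  nlinarith

end Pool.Agent.Helper85.KN
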