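import Pool.Agent.Helper85.KN.GFun

/-!
# The replacement step
-/

namespace Pool.Agent.Helper85.KN

open Finset MeasureTheory intervalIntegral

theorem hinge0 (a : ℕ) : ∀ D : ℝ, D ≤ a →
    2 * (a : ℝ) * ∑ i ∈ range a, max 0 (D - 1 - i) ≤ ((a : ℝ) - 1) * D ^ 2 ∨ a = 0 := by
  induction a with
  | zero => intro D _; right; rfl
  | succ a ih =>
    intro D hD
    left
    rcases Nat.eq_zero_or_pos a with h0 | h0
    · subst h0
      simp at hD ⊢
      rw [max_eq_left (by linarith)]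
      simp
    have ha : (0 : ℝ) < a := by exact_mod_cast h0
    rw [Finset.sum_range_succ']
    push_cast at hD ⊢
    have e : ∀ i ∈ range a, max 0 (D - 1 - ((i : ℝ) + 1)) = max 0 ((D - 1) - 1 - (i : ℝ)) := by
      intro i _; congr 1; ring
    rw [Finset.sum_congr rfl e]
    rcases ih (D - 1) (by linarith) with h | h
    swap
    · omega
    rcases le_total D 1 with h1 | h1
    · have z : ∑ i ∈ range a, max 0 ((D - 1) - 1 - (i : ℝ)) = 0 := by
        apply Finset.sum_eq_zero
        intro i _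
        apply max_eq_left
        have : (0 : ℝ) ≤ i := by positivity
        linarith
      rw [z, max_eq_left (by linarith)]
      have : 0 ≤ (a : ℝ) * D ^ 2 := by positivity
      nlinarith
    · rw [max_eq_right (by linarith : 0 ≤ D - 1 - 0)]
      set S := ∑ i ∈ range a, max 0 ((D - 1) - 1 - (i : ℝ)) with hS
      have h2 : 0 ≤ (D - 1 - a) ^ 2 := sq_nonneg _
      have h3 : a * (2 * ((a : ℝ) + 1) * (S + (D - 1 - 0))) ≤ a * (((a : ℝ) + 1 - 1) * D ^ 2) := by
        nlinarith [mul_le_mul_of_nonneg_left h (by positivity : (0 : ℝ) ≤ a + 1)]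
      exact le_of_mul_le_mul_left h3 ha

theorem hinge (a : ℕ) (ha : 1 ≤ a) (x : ℝ) (h1 : x ≤ 1) :
    (a : ℝ)⁻¹ * ∑ k ∈ range a, max 0 (x + (k : ℝ) / a - 1) ≤ (1 - (a : ℝ)⁻¹) * (x ^ 2 / 2) := by
  have ha0 : (0 : ℝ) < a := by exact_mod_cast ha
  have h := (hinge0 a (a * x) (by nlinarith)).resolve_right (by omega)
  have e : ∑ k ∈ range a, max 0 (x + (k : ℝ) / a - 1) =
      (a : ℝ)⁻¹ * ∑ i ∈ range a, max 0 (a * x - 1 - (i : ℝ)) := by
    rw [← Finset.sum_range_reflect, Finset.mul_sum]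
    apply Finset.sum_congr rfl
    intro i hi
    rw [Finset.mem_range] at hi
    have : ((a - 1 - i : ℕ) : ℝ) = (a : ℝ) - 1 - i := by
      rw [Nat.cast_sub (by omega), Nat.cast_sub (by omega)]
      simp
    rw [this, mul_max_of_nonneg _ _ (by positivity), mul_zero]
    congr 1
    field_simp
    ring
  rw [e]
  have h4 : (a : ℝ)⁻¹ * ((a : ℝ)⁻¹ * ∑ i ∈ range a, max 0 (a * x - 1 - (i : ℝ))) =
      (2 * (a : ℝ) ^ 3)⁻¹ * (2 * (a : ℝ) * ∑ i ∈ range a, max 0 (a * x - 1 - (i : ℝ))) := by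
    field_simp
  rw [h4]
  have h5 : (2 * (a : ℝ) ^ 3)⁻¹ * (2 * (a : ℝ) * ∑ i ∈ range a, max 0 (a * x - 1 - (i : ℝ))) ≤
      (2 * (a : ℝ) ^ 3)⁻¹ * (((a : ℝ) - 1) * (a * x) ^ 2) := by
    gcongr
  refine h5.trans (le_of_eq ?_)
  field_simp

theorem G_one' (n m : ℕ) (x : ℝ) (h0 : 0 ≤ x) (h1 : x ≤ 2) :
    G (n + 2) 1 (m + x) =
      Nat.choose m (n + 2) + x * Nat.choose m (n + 1) + max 0 (x - 1) * Nat.choose m n := by
  rcases le_total x 1 with h | h
  · rw [G_one (n + 1) m x h0 h, max_eq_left (by linarith)]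
    ring
  · have : (m : ℝ) + x = ((m + 1 : ℕ) : ℝ) + (x - 1) := by push_cast; ring
    rw [this, G_one (n + 1) (m + 1) (x - 1) (by linarith) (by linarith),
      max_eq_right (by linarith), Nat.choose_succ_succ' m (n + 1), Nat.choose_succ_succ' m n]
    push_cast
    ring

theorem G_two (n m : ℕ) (x : ℝ) (h0 : 0 ≤ x) (h1 : x ≤ 1) :
    G (n + 2) 2 (m + x) = Nat.choose m (n + 2) + Nat.choose m (n + 1) / 2 +
      x * Nat.choose m (n + 1) + x ^ 2 / 2 * Nat.choose m n := by
  have hm : (0 : ℝ) ≤ m := by positivity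
  rw [G_deriv (n + 1) 1 m (m + x) hm (by linarith)]
  have e1 : G (n + 1 + 1) (1 + 1) m = Nat.choose m (n + 2) + Nat.choose m (n + 1) / 2 := by
    rw [G_succ]
    have : ∫ u in (0 : ℝ)..1, G (n + 1 + 1) 1 (m + u) =
        ∫ u in (0 : ℝ)..1, ((Nat.choose m (n + 2) : ℝ) + u * Nat.choose m (n + 1)) := by
      apply intervalIntegral.integral_congr_Ioo_of_le (by norm_num)
      intro u hu
      exact G_one (n + 1) m u hu.1.le hu.2.le
    rw [this, intervalIntegral.integral_add (by simp) (by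
      apply Continuous.intervalIntegrable; fun_prop)]
    simp
    ring
  have e2 : ∫ v in (m : ℝ)..(m + x), G (n + 1) 1 v =
      x * Nat.choose m (n + 1) + x ^ 2 / 2 * Nat.choose m n := by
    have h3 : ∫ v in (m : ℝ)..(m + x), G (n + 1) 1 v = ∫ u in (0 : ℝ)..x, G (n + 1) 1 (m + u) := by
      have := intervalIntegral.integral_comp_add_left (a := (0 : ℝ)) (b := x)
        (fun v ↦ G (n + 1) 1 v) m
      rw [this, add_zero]
    have : ∫ u in (0 : ℝ)..x, G (n + 1) 1 (m + u) =
        ∫ u in (0 : ℝ)..x, ((Nat.choose m (n + 1) : ℝ) + u * Nat.choose m n) := by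
      apply intervalIntegral.integral_congr_Ioo_of_le h0
      intro u hu
      exact G_one n m u hu.1.le (hu.2.le.trans h1)
    rw [h3, this, intervalIntegral.integral_add (by simp) (by
      apply Continuous.intervalIntegrable; fun_prop)]
    simp
  rw [e1, e2]
  ring

theorem sum_div_range (a : ℕ) (ha : 1 ≤ a) :
    ∑ k ∈ range a, (k : ℝ) / a = ((a : ℝ) - 1) / 2 := by
  have ha0 : (0 : ℝ) < a := by exact_mod_cast ha
  rw [← Finset.sum_div]
  have h : ((∑ k ∈ range a, k : ℕ) : ℝ) * 2 = a * ((a : ℝ) - 1) := by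
    have := Finset.sum_range_id_mul_two a
    have h2 : (((∑ k ∈ range a, k) * 2 : ℕ) : ℝ) = ((a * (a - 1) : ℕ) : ℝ) := by
      exact_mod_cast this
    push_cast at h2
    rw [Nat.cast_sub ha] at h2
    push_cast
    simpa using h2
  push_cast at h
  field_simp
  linarith

/-- **V1** for `j = 1`. -/
theorem vstep_one (n : ℕ) (a : ℕ) (ha : 1 ≤ a) (y : ℝ) (hy : 0 ≤ y) :
    T a (G (n + 2) 1) y ≤ (a : ℝ)⁻¹ * G (n + 2) 1 y + (1 - (a : ℝ)⁻¹) * G (n + 2) 2 y := by
  have ha0 : (0 : ℝ) < a := by exact_mod_cast ha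
  obtain ⟨m, x, h0, h1, rfl⟩ : ∃ (m : ℕ) (x : ℝ), 0 ≤ x ∧ x < 1 ∧ y = m + x :=
    ⟨⌊y⌋₊, y - ⌊y⌋₊, by linarith [Nat.floor_le hy], by linarith [Nat.lt_floor_add_one y], by ring⟩
  have e : T a (G (n + 2) 1) (m + x) = Nat.choose m (n + 2) + x * Nat.choose m (n + 1) +
      (1 - (a : ℝ)⁻¹) / 2 * Nat.choose m (n + 1) +
      ((a : ℝ)⁻¹ * ∑ k ∈ range a, max 0 (x + (k : ℝ) / a - 1)) * Nat.choose m n := by
    unfold T
    have : ∀ k ∈ range a, G (n + 2) 1 (m + x + (k : ℝ) / a) =
        ((Nat.choose m (n + 2) : ℝ) + x * Nat.choose m (n + 1)) +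
          (k : ℝ) / a * Nat.choose m (n + 1) + max 0 (x + (k : ℝ) / a - 1) * Nat.choose m n := by
      intro k hk
      rw [Finset.mem_range] at hk
      have hk1 : (k : ℝ) / a ≤ 1 := by
        rw [div_le_one ha0]
        exact_mod_cast hk.le
      have hk0 : 0 ≤ (k : ℝ) / a := by positivity
      rw [add_assoc, G_one' n m (x + (k : ℝ) / a) (by linarith) (by linarith)]
      ring
    rw [Finset.sum_congr rfl this, Finset.sum_add_distrib, Finset.sum_add_distrib,
      Finset.sum_const, ← Finset.sum_mul, ← Finset.sum_mul, sum_div_range a ha, card_range,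
      nsmul_eq_mul]
    field_simp
  have h := hinge a ha x h1.le
  have hc : (0 : ℝ) ≤ Nat.choose m n := by positivity
  have h' := mul_le_mul_of_nonneg_right h hc
  rw [e, G_one (n + 1) m x h0 h1.le, G_two n m x h0 h1.le]
  nlinarith

/-- **V1** for all `j ≥ 1`. -/
theorem vstep (n : ℕ) (a : ℕ) (ha : 1 ≤ a) (j : ℕ) : ∀ y : ℝ, 0 ≤ y →
    T a (G (n + 2) (j + 1)) y ≤
      (a : ℝ)⁻¹ * G (n + 2) (j + 1) y + (1 - (a : ℝ)⁻¹) * G (n + 2) (j + 2) y := by
  induction j with
  | zero => exact fun y hy ↦ vstep_one n a ha y hy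
  | succ j ih =>
    intro y hy
    have ha0 : (0 : ℝ) < a := by exact_mod_cast ha
    have e1 : T a (G (n + 2) (j + 1 + 1)) y = ∫ u in (0 : ℝ)..1, T a (G (n + 2) (j + 1)) (y + u) := by
      unfold T
      rw [intervalIntegral.integral_const_mul, intervalIntegral.integral_finsetSum]
      · congr 1
        apply Finset.sum_congr rfl
        intro k _
        rw [G_succ]
        apply intervalIntegral.integral_congr
        intro u _
        simp only
        congr 1
        ring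
      · intro k _
        have : (fun u : ℝ ↦ G (n + 2) (j + 1) (y + u + (k : ℝ) / a)) =
            fun u : ℝ ↦ G (n + 2) (j + 1) ((y + (k : ℝ) / a) + u) := by
          funext u; congr 1; ring
        rw [this]
        exact G_int _ _ _ _ _
    have e2 : (a : ℝ)⁻¹ * G (n + 2) (j + 1 + 1) y + (1 - (a : ℝ)⁻¹) * G (n + 2) (j + 1 + 2) y =
        ∫ u in (0 : ℝ)..1, ((a : ℝ)⁻¹ * G (n + 2) (j + 1) (y + u) +
          (1 - (a : ℝ)⁻¹) * G (n + 2) (j + 2) (y + u)) := by
      rw [intervalIntegral.integral_add ((G_int _ _ _ _ _).const_mul _)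
        ((G_int _ _ _ _ _).const_mul _), intervalIntegral.integral_const_mul,
        intervalIntegral.integral_const_mul]
      rfl
    rw [e1, e2]
    apply intervalIntegral.integral_mono_on (by norm_num)
    · unfold T
      apply IntervalIntegrable.const_mul
      have : (fun u : ℝ ↦ ∑ k ∈ range a, G (n + 2) (j + 1) (y + u + (k : ℝ) / a)) =
          ∑ k ∈ range a, fun u : ℝ ↦ G (n + 2) (j + 1) ((y + (k : ℝ) / a) + u) := by
        funext u
        rw [Finset.sum_apply]
        apply Finset.sum_congr rfl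
        intro k _
        congr 1; ring
      rw [this]
      apply IntervalIntegrable.sum
      intro k _
      exact G_int _ _ _ _ _
    · exact ((G_int _ _ _ _ _).const_mul _).add ((G_int _ _ _ _ _).const_mul _)
    · intro u hu
      exact ih (y + u) (by linarith [hu.1])

end Pool.Agent.Helper85.KN
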